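import Pool.Agent.H2.TE.One
import Pool.Agent.H36.TX.Defs

set_option autoImplicit false

/-!
# A 3-connected binary matroid with a quad and at least seven elements is not representable in characteristic not 2
-/

namespace Pool.Agent.H2.TE

open Submodule Set Matroid

theorem rep_of_isRep {α W F : Type} [Field F] [AddCommGroup W] [Module F W] {M : Matroid α} {w : α → W}
    (h : Pool.Agent.H36.TX.IsRep M F w) : Rep F M w :=
  fun I => ⟨fun hI => ⟨hI.subset_ground, (h I hI.subset_ground).1 hI⟩, fun hI => (h I hI.1).2 hI.2⟩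

theorem quad_three {α : Type} [Finite α] (M : Matroid α) {e x y z : α} (hd : Pool.Agent.H36.TX.Diff4 e x y z)
    (hM : Pool.Agent.H36.TX.Rep M (ZMod 2)) (hC : M.IsCircuit {e, x, y, z}) (hK : M.IsCocircuit {e, x, y, z})
    (h3 : Pool.Agent.H36.TX.ThreeConn M) (h7 : 7 ≤ M.E.encard) (F : Type) [Field F] (h2 : (2 : F) ≠ 0) :
    ¬ Pool.Agent.H36.TX.Rep M F := by
  classical
  obtain ⟨V, i1, i2, v, hv⟩ := hM
  rintro ⟨W, j1, j2, w, hw⟩
  obtain ⟨h_ex, h_ey, h_ez, h_xy, h_xz, h_yz⟩ := hd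
  refine quad_non (e := e) h3 (rep_of_isRep hv) h7 hC hK ?_ (by simp) h2 (rep_of_isRep hw)
  rw [Set.encard_insert_of_notMem (by simp [h_ex, h_ey, h_ez]), Set.encard_insert_of_notMem (by simp [h_xy, h_xz]),
    Set.encard_pair h_yz]
  norm_num

end Pool.Agent.H2.TE
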