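import Mathlib

set_option autoImplicit false

namespace Pool.Agent.H2.TE

open Submodule

section key

variable {α V : Type} [DecidableEq α] [AddCommGroup V] [Module (ZMod 2) V]

/-- The span of the vectors of a set of elements. -/
abbrev S (v : α → V) (J : Finset α) : Submodule (ZMod 2) V := span (ZMod 2) (v '' (J : Set α))

lemma two (x : V) : x + x = 0 := by
  have h : (1 + 1 : ZMod 2) • x = 0 := by
    rw [show (1 + 1 : ZMod 2) = 0 from by decide, zero_smul]
  rwa [add_smul, one_smul] at h

lemma eq_of (x y : V) (h : x + y = 0) : x = y := by
  have := two y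
  rw [← this] at h
  exact add_right_cancel h

lemma mem_ins (v : α → V) (J : Finset α) (k : α) (x : V) :
    x ∈ S v (insert k J) ↔ x ∈ S v J ∨ x + v k ∈ S v J := by
  unfold S
  rw [Finset.coe_insert, Set.image_insert_eq, mem_span_insert]
  constructor
  · rintro ⟨a, z, hz, rfl⟩
    have ha : a = 0 ∨ a = 1 := by revert a; decide
    rcases ha with rfl | rfl
    · left; simpa using hz
    · right
      have : (1 : ZMod 2) • v k + z + v k = z := by
        rw [one_smul, add_right_comm, two, zero_add]
      rwa [this]
  · rintro (h | h)
    · exact ⟨0, x, h, by simp⟩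
    · refine ⟨1, x + v k, h, ?_⟩
      rw [one_smul, add_comm x, ← add_assoc, two, zero_add]

omit [DecidableEq α] in
lemma S_mono (v : α → V) {A B : Finset α} (h : A ⊆ B) : S v A ≤ S v B :=
  span_mono (Set.image_mono (by exact_mod_cast h))

lemma S_union (v : α → V) (A B : Finset α) : S v (A ∪ B) = S v A ⊔ S v B := by
  unfold S
  rw [Finset.coe_union, Set.image_union, span_union]

omit [DecidableEq α] in
lemma mem_S (v : α → V) {A : Finset α} {x : α} (h : x ∈ A) : v x ∈ S v A :=
  subset_span ⟨x, by exact_mod_cast h, rfl⟩

lemma S_insert_of_mem (v : α → V) {A : Finset α} {x : α} (h : v x ∈ S v A) : S v (insert x A) = S v A := by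
  refine le_antisymm (fun u hu => ?_) (S_mono v (Finset.subset_insert _ _))
  rcases (mem_ins v A x u).1 hu with h1 | h1
  · exact h1
  · have := (S v A).add_mem h1 h
    rwa [add_assoc, two, add_zero] at this

/-- Either a subset of `X` spans `y + z` and not `y`, or `X` is a direct sum which separates `y` and `z`. -/
def Good (v : α → V) (X : Finset α) (y z : V) : Prop :=
  (∃ J, J ⊆ X ∧ y + z ∈ S v J ∧ y ∉ S v J) ∨
    ∃ A B, A ∪ B = X ∧ Disjoint A B ∧ Disjoint (S v A) (S v B) ∧ y ∈ S v A ∧ z ∈ S v B

lemma Good.symm {v : α → V} {X : Finset α} {y z : V} (h : Good v X y z) : Good v X z y := by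
  rcases h with ⟨J, h1, h2, h3⟩ | ⟨A, B, h1, h2, h3, h4, h5⟩
  · refine Or.inl ⟨J, h1, by rwa [add_comm], fun hz => h3 ?_⟩
    have := (S v J).add_mem h2 hz
    rwa [add_assoc, two, add_zero] at this
  · exact Or.inr ⟨B, A, by rw [Finset.union_comm]; exact h1, h2.symm, h3.symm, h5, h4⟩

lemma disj_insert {v : α → V} {A B : Finset α} {x : α} (h : Disjoint (S v A) (S v B)) (hx : v x ∉ S v (A ∪ B)) :
    Disjoint (S v (insert x A)) (S v B) := by
  rw [disjoint_def]
  intro u hu hu'
  rcases (mem_ins v A x u).1 hu with h1 | h1
  · exact disjoint_def.1 h u h1 hu'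
  · exfalso
    apply hx
    rw [S_union]
    have : v x = (u + v x) + u := by
      rw [add_right_comm, two, zero_add]
    rw [this]
    exact mem_sup.2 ⟨_, h1, _, hu', rfl⟩

lemma case_one {v : α → V} {X : Finset α} {x : α} (hxX : x ∈ X)
    (ih : ∀ Y, Y ⊂ X → ∀ y z : V, y ∈ S v Y → z ∈ S v Y → y ≠ 0 → z ≠ 0 → Good v Y y z)
    {y z : V} (hy : y ∈ S v X) (hz0 : z ≠ 0) (hyn : y ∉ S v (X.erase x)) (hz : z ∈ S v (X.erase x)) :
    Good v X y z := by
  have hins : insert x (X.erase x) = X := Finset.insert_erase hxX
  have hx : v x ∉ S v (X.erase x) := by
    intro h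
    rw [← S_insert_of_mem v h, hins] at hyn
    exact hyn hy
  have hy' : y + v x ∈ S v (X.erase x) := by
    rw [← hins] at hy
    exact ((mem_ins _ _ _ _).1 hy).resolve_left hyn
  by_cases h0 : y + v x = 0
  · have hyx : y = v x := eq_of _ _ h0
    refine Or.inr ⟨{x}, X.erase x, ?_, ?_, ?_, ?_, hz⟩
    · rw [← Finset.insert_eq]; exact hins
    · simp
    · rw [show ({x} : Finset α) = insert x ∅ from (insert_empty_eq x).symm]
      refine disj_insert ?_ ?_
      · unfold S; simp
      · rwa [Finset.empty_union]
    · rw [hyx]; exact mem_S v (Finset.mem_singleton_self x)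
  · rcases ih _ (Finset.erase_ssubset hxX) _ z hy' hz h0 hz0 with ⟨J, h1, h2, h3⟩ | ⟨A, B, h1, h2, h3, h4, h5⟩
    · refine Or.inl ⟨insert x J, ?_, ?_, ?_⟩
      · exact Finset.insert_subset hxX (h1.trans (Finset.erase_subset _ _))
      · rw [mem_ins]
        right
        rwa [add_right_comm]
      · rw [mem_ins]
        rintro (h | h)
        · exact hyn (S_mono v h1 h)
        · exact h3 h
    · refine Or.inr ⟨insert x A, B, ?_, ?_, ?_, ?_, h5⟩
      · rw [Finset.insert_union, h1, hins]
      · rw [Finset.disjoint_insert_left]
        refine ⟨fun h => ?_, h2⟩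
        have : x ∈ X.erase x := by rw [← h1]; exact Finset.mem_union_right _ h
        simp at this
      · exact disj_insert h3 (by rwa [h1])
      · rw [mem_ins]; right; exact h4

theorem key (v : α → V) (X : Finset α) : ∀ y z : V, y ∈ S v X → z ∈ S v X → y ≠ 0 → z ≠ 0 → Good v X y z := by
  induction X using Finset.strongInduction with
  | H X ih =>
  intro y z hy hz hy0 hz0
  rcases X.eq_empty_or_nonempty with rfl | ⟨x, hxX⟩
  · exfalso
    apply hy0
    simpa [S] using hy
  have hins : insert x (X.erase x) = X := Finset.insert_erase hxX
  by_cases hy1 : y ∈ S v (X.erase x)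
  · by_cases hz1 : z ∈ S v (X.erase x)
    · rcases ih _ (Finset.erase_ssubset hxX) y z hy1 hz1 hy0 hz0 with ⟨J, h1, h2, h3⟩ | ⟨A, B, h1, h2, h3, h4, h5⟩
      · exact Or.inl ⟨J, h1.trans (Finset.erase_subset _ _), h2, h3⟩
      · have hxA : x ∉ A := fun h => by
          have : x ∈ X.erase x := by rw [← h1]; exact Finset.mem_union_left _ h
          simp at this
        have hxB : x ∉ B := fun h => by
          have : x ∈ X.erase x := by rw [← h1]; exact Finset.mem_union_right _ h
          simp at this
        have hAX : A ⊂ X := by
          refine Finset.ssubset_of_subset_of_ssubset ?_ (Finset.erase_ssubset hxX)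
          rw [← h1]; exact Finset.subset_union_left
        have hBX : B ⊂ X := by
          refine Finset.ssubset_of_subset_of_ssubset ?_ (Finset.erase_ssubset hxX)
          rw [← h1]; exact Finset.subset_union_right
        by_cases hx : v x ∈ S v (X.erase x)
        · rw [← h1, S_union] at hx
          obtain ⟨a, ha, b, hb, hab⟩ := mem_sup.1 hx
          by_cases ha0 : a = 0
          · refine Or.inr ⟨A, insert x B, ?_, ?_, ?_, h4, ?_⟩
            · rw [Finset.union_insert, h1, hins]
            · rw [Finset.disjoint_insert_right]; exact ⟨hxA, h2⟩
            · rw [S_insert_of_mem]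
              · exact h3
              · rw [← hab, ha0, zero_add]; exact hb
            · exact S_mono v (Finset.subset_insert _ _) h5
          by_cases hb0 : b = 0
          · refine Or.inr ⟨insert x A, B, ?_, ?_, ?_, ?_, h5⟩
            · rw [Finset.insert_union, h1, hins]
            · rw [Finset.disjoint_insert_left]; exact ⟨hxB, h2⟩
            · rw [S_insert_of_mem]
              · exact h3
              · rw [← hab, hb0, add_zero]; exact ha
            · exact S_mono v (Finset.subset_insert _ _) h4
          rcases ih A hAX y a h4 ha hy0 ha0 with ⟨J1, p1, p2, p3⟩ | ⟨A1, A2, p1, p2, p3, p4, p5⟩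
          · rcases ih B hBX z b h5 hb hz0 hb0 with ⟨J2, q1, q2, q3⟩ | ⟨B1, B2, q1, q2, q3, q4, q5⟩
            · refine Or.inl ⟨insert x (J1 ∪ J2), ?_, ?_, ?_⟩
              · refine Finset.insert_subset hxX (Finset.union_subset (p1.trans hAX.1) (q1.trans hBX.1))
              · rw [mem_ins]
                right
                rw [S_union, ← hab]
                exact mem_sup.2 ⟨_, p2, _, q2, by abel⟩
              · rw [mem_ins, S_union]
                rintro (h | h)
                · obtain ⟨s, hs, t, ht, hst⟩ := mem_sup.1 h
                  have ht' : t = y - s := by rw [← hst]; abel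
                  have ht0 : t = 0 := by
                    refine disjoint_def.1 h3 t ?_ (S_mono v q1 ht)
                    rw [ht']
                    exact (S v A).sub_mem h4 (S_mono v p1 hs)
                  rw [ht0, add_zero] at hst
                  exact p3 (hst ▸ hs)
                · obtain ⟨s, hs, t, ht, hst⟩ := mem_sup.1 h
                  have e1 : t - b = y + a - s := by
                    have : t = y + v x - s := by rw [← hst]; abel
                    rw [this, ← hab]; abel
                  have e2 : t - b = 0 := by
                    refine disjoint_def.1 h3 _ ?_ ((S v B).sub_mem (S_mono v q1 ht) hb)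
                    rw [e1]
                    exact (S v A).sub_mem ((S v A).add_mem h4 ha) (S_mono v p1 hs)
                  have e3 : b ∈ S v J2 := by
                    rw [← sub_eq_zero.1 e2]; exact ht
                  apply q3
                  have := (S v J2).add_mem q2 e3
                  rwa [add_assoc, two, add_zero] at this
            · refine Or.inr ⟨insert x (A ∪ B2), B1, ?_, ?_, ?_, ?_, q4⟩
              · rw [Finset.insert_union, Finset.union_assoc, Finset.union_comm B2, q1, h1, hins]
              · rw [Finset.disjoint_insert_left]
                refine ⟨fun h => hxB (by rw [← q1]; exact Finset.mem_union_left _ h), ?_⟩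
                rw [Finset.disjoint_union_left]
                refine ⟨Finset.disjoint_of_subset_right (by rw [← q1]; exact Finset.subset_union_left) h2, q2.symm⟩
              · rw [S_insert_of_mem]
                · rw [S_union, disjoint_def]
                  intro u hu hu1
                  obtain ⟨s, hs, t, ht, hst⟩ := mem_sup.1 hu
                  have htB : t ∈ S v B := S_mono v (by rw [← q1]; exact Finset.subset_union_right) ht
                  have huB : u ∈ S v B := S_mono v (by rw [← q1]; exact Finset.subset_union_left) hu1
                  have hs0 : s = 0 := by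
                    refine disjoint_def.1 h3 s hs ?_
                    have : s = u - t := by rw [← hst]; abel
                    rw [this]
                    exact (S v B).sub_mem huB htB
                  rw [hs0, zero_add] at hst
                  exact disjoint_def.1 q3 u hu1 (hst ▸ ht)
                · rw [S_union, ← hab]
                  exact mem_sup.2 ⟨_, ha, _, q5, rfl⟩
              · exact S_mono v (Finset.subset_union_left.trans (Finset.subset_insert _ _)) h4
          · refine Or.inr ⟨A1, insert x (A2 ∪ B), ?_, ?_, ?_, p4, ?_⟩
            · rw [Finset.union_insert, ← Finset.union_assoc, p1, h1, hins]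
            · rw [Finset.disjoint_insert_right]
              refine ⟨fun h => hxA (by rw [← p1]; exact Finset.mem_union_left _ h), ?_⟩
              rw [Finset.disjoint_union_right]
              refine ⟨p2, Finset.disjoint_of_subset_left (by rw [← p1]; exact Finset.subset_union_left) h2⟩
            · rw [S_insert_of_mem]
              · rw [S_union, disjoint_def]
                intro u hu1 hu
                obtain ⟨s, hs, t, ht, hst⟩ := mem_sup.1 hu
                have hsA : s ∈ S v A := S_mono v (by rw [← p1]; exact Finset.subset_union_right) hs
                have huA : u ∈ S v A := S_mono v (by rw [← p1]; exact Finset.subset_union_left) hu1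
                have ht0 : t = 0 := by
                  refine disjoint_def.1 h3 t ?_ ht
                  have : t = u - s := by rw [← hst]; abel
                  rw [this]
                  exact (S v A).sub_mem huA hsA
                rw [ht0, add_zero] at hst
                exact disjoint_def.1 p3 u hu1 (hst ▸ hs)
              · rw [S_union, ← hab]
                exact mem_sup.2 ⟨_, p5, _, hb, rfl⟩
            · exact S_mono v (Finset.subset_union_right.trans (Finset.subset_insert _ _)) h5
        · refine Or.inr ⟨insert x A, B, ?_, ?_, ?_, ?_, h5⟩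
          · rw [Finset.insert_union, h1, hins]
          · rw [Finset.disjoint_insert_left]; exact ⟨hxB, h2⟩
          · exact disj_insert h3 (by rwa [h1])
          · exact S_mono v (Finset.subset_insert _ _) h4
    · exact (case_one hxX ih hz hy0 hz1 hy1).symm
  · by_cases hz1 : z ∈ S v (X.erase x)
    · exact case_one hxX ih hy hz0 hy1 hz1
    · refine Or.inl ⟨X.erase x, Finset.erase_subset _ _, ?_, hy1⟩
      rw [← hins] at hy hz
      have h1 := ((mem_ins _ _ _ _).1 hy).resolve_left hy1
      have h2 := ((mem_ins _ _ _ _).1 hz).resolve_left hz1
      have h3 := (S v (X.erase x)).add_mem h1 h2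
      have h4 : y + v x + (z + v x) = y + z := by
        rw [add_add_add_comm, two, add_zero]
      rwa [h4] at h3

end key

end Pool.Agent.H2.TE
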