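import Pool.Agent.H2.TE.YD
import Pool.Agent.H2.TE.Key

set_option autoImplicit false

namespace Pool.Agent.H2.TE

open Submodule Set Matroid

/-- `M` is 3-connected (Tutte): there is no `k`-separation for `k = 1, 2`. -/
def ThreeConnected {α : Type} (M : Matroid α) : Prop :=
  ∀ k : ℕ, (k = 1 ∨ k = 2) → ∀ X Y : Set α, X ∪ Y = M.E → Disjoint X Y → (k : ℕ∞) ≤ X.encard →
    (k : ℕ∞) ≤ Y.encard → M.eRank + k ≤ M.eRk X + M.eRk Y

section con

variable {α : Type} [Finite α]

lemma fin_enc (X : Set α) : ∃ n : ℕ, X.encard = n := by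
  have h : X.encard ≠ ⊤ := (Set.encard_lt_top_iff.2 (Set.toFinite X)).ne
  obtain ⟨n, hn⟩ := ENat.ne_top_iff_exists.1 h
  exact ⟨n, hn.symm⟩

lemma fin_eRk (M : Matroid α) (X : Set α) : ∃ n : ℕ, M.eRk X = n := by
  have h : M.eRk X ≠ ⊤ := by
    refine ne_top_of_le_ne_top (Set.encard_lt_top_iff.2 (Set.toFinite X)).ne (M.eRk_le_encard X)
  obtain ⟨n, hn⟩ := ENat.ne_top_iff_exists.1 h
  exact ⟨n, hn.symm⟩

lemma fin_eRank (M : Matroid α) : ∃ n : ℕ, M.eRank = n := by
  rw [eRank_def]; exact fin_eRk M _

theorem simple {N : Matroid α} (hN : ThreeConnected N) (h4 : 4 ≤ N.E.encard) {x y : α} (hx : x ∈ N.E) (hy : y ∈ N.E)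
    (hxy : x ≠ y) : N.Indep {x, y} := by
  have hsub : ({x, y} : Set α) ⊆ N.E := insert_subset hx (singleton_subset_iff.2 hy)
  have h2 : ({x, y} : Set α).encard = 2 := Set.encard_pair hxy
  have h3 : ({x, y} : Set α).encard + (N.E \ {x, y}).encard = N.E.encard := by
    rw [add_comm]
    exact Set.encard_sdiff_add_encard_of_subset hsub
  have h5 := hN 2 (Or.inr rfl) {x, y} (N.E \ {x, y}) (union_sdiff_cancel hsub) disjoint_sdiff_right
    (by rw [h2]; norm_num) (by
      obtain ⟨p, hp⟩ := fin_enc (N.E \ {x, y})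
      obtain ⟨q, hq⟩ := fin_enc N.E
      rw [h2, hp, hq] at h3
      rw [hq] at h4
      rw [hp]
      norm_cast at h3 h4 ⊢
      omega)
  have h6 := N.eRk_le_eRank (N.E \ {x, y})
  have h7 := N.eRk_le_encard {x, y}
  rw [indep_iff_eRk_eq_encard_of_finite (Set.toFinite _)]
  rw [h2] at h7 ⊢
  obtain ⟨p, hp⟩ := fin_eRk N {x, y}
  obtain ⟨q, hq⟩ := fin_eRk N (N.E \ {x, y})
  obtain ⟨r, hr⟩ := fin_eRank N
  rw [hp, hq, hr] at h5
  rw [hq, hr] at h6
  rw [hp] at h7 ⊢
  norm_cast at h5 h6 h7 ⊢
  omega

theorem ext_three {M N : Matroid α} {e : α} (he : e ∉ N.E) (hME : M.E = insert e N.E) (hdel : M ＼ {e} = N)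
    (hN : ThreeConnected N) (hne : N.E.Nonempty) (hpair : ∀ x ∈ N.E, M.Indep {e, x})
    (hspan : e ∈ M.closure N.E) : ThreeConnected M := by
  have hNE : N.E = M.E \ {e} := by rw [← hdel]; rfl
  have hrk : ∀ Y : Set α, Y ⊆ N.E → N.eRk Y = M.eRk Y := by
    intro Y hY
    rw [← hdel, delete_eq_restrict]
    exact restrict_eRk_eq M (by rw [← hNE]; exact hY)
  have hrank : M.eRank = N.eRank := by
    rw [eRank_def, eRank_def N, hrk _ Subset.rfl]
    refine le_antisymm ?_ (M.eRk_mono (by rw [hME]; exact subset_insert _ _))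
    rw [← M.eRk_closure_eq N.E, hME]
    refine M.eRk_mono (insert_subset hspan ?_)
    exact M.subset_closure N.E (by rw [hME]; exact subset_insert _ _)
  have main : ∀ k : ℕ, (k = 1 ∨ k = 2) → ∀ X Y : Set α, X ∪ Y = M.E → Disjoint X Y → (k : ℕ∞) ≤ X.encard →
    (k : ℕ∞) ≤ Y.encard → e ∈ X → M.eRank + k ≤ M.eRk X + M.eRk Y := by
    intro k hk X Y hXY hd hX hY heX
    have heY : e ∉ Y := fun h => Set.disjoint_left.1 hd heX h
    have h1 : (X \ {e}) ∪ Y = N.E := by
      rw [hNE, ← hXY, union_sdiff_distrib, sdiff_singleton_eq_self heY]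
    have h2 : Disjoint (X \ {e}) Y := hd.mono_left sdiff_subset
    have hYN : Y ⊆ N.E := by rw [← h1]; exact subset_union_right
    have hXN : X \ {e} ⊆ N.E := by rw [← h1]; exact subset_union_left
    have h3 : (X \ {e}).encard + 1 = X.encard := Set.encard_sdiff_singleton_add_one heX
    obtain ⟨p, hp⟩ := fin_eRk M X
    obtain ⟨q, hq⟩ := fin_eRk M Y
    obtain ⟨r, hr⟩ := fin_eRank N
    obtain ⟨s, hs⟩ := fin_eRk M (X \ {e})
    obtain ⟨t, ht⟩ := fin_enc (X \ {e})
    have h4 : M.eRk (X \ {e}) ≤ M.eRk X := M.eRk_mono sdiff_subset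
    by_cases hcard : (k : ℕ∞) ≤ (X \ {e}).encard
    · have h5 := hN k hk _ _ h1 h2 hcard hY
      rw [hrk _ hYN, hrk _ hXN] at h5
      rw [hrank]
      exact h5.trans (add_le_add_left h4 _)
    · rw [ht] at hcard h3
      rw [← h3] at hX
      norm_cast at hcard hX
      rcases hk with rfl | rfl
      · have ht0 : t = 0 := by omega
        rw [ht0] at ht
        have hXe : X \ {e} = ∅ := Set.encard_eq_zero.1 (by exact_mod_cast ht)
        rw [hXe, empty_union] at h1
        obtain ⟨x, hx⟩ := hne
        have h6 : M.Indep {e} := (hpair x hx).subset (by simp)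
        have h7 : M.eRk {e} ≤ M.eRk X := M.eRk_mono (singleton_subset_iff.2 heX)
        rw [h6.eRk_eq_encard, Set.encard_singleton] at h7
        have h8 : M.eRk Y = N.eRank := by rw [h1, eRank_def, hrk _ Subset.rfl]
        rw [hrank, h8, hr, hp]
        rw [hp] at h7
        norm_cast at h7 ⊢
        omega
      · have ht1 : t = 1 := by omega
        rw [ht1] at ht
        obtain ⟨x, hx⟩ := Set.encard_eq_one.1 (by exact_mod_cast ht)
        have hxN : x ∈ N.E := hXN (by rw [hx]; exact mem_singleton x)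
        have hxX : x ∈ X := by
          have : x ∈ X \ {e} := by rw [hx]; exact mem_singleton x
          exact this.1
        have hxe : e ≠ x := fun h => he (h ▸ hxN)
        have h7 : M.eRk {e, x} ≤ M.eRk X := M.eRk_mono (insert_subset heX (singleton_subset_iff.2 hxX))
        rw [(hpair x hxN).eRk_eq_encard, Set.encard_pair hxe] at h7
        have h8 := hN 1 (Or.inl rfl) _ _ h1 h2 (by rw [ht]) (le_trans (by norm_num) hY)
        have h9 : N.eRk (X \ {e}) ≤ 1 := by
          have := N.eRk_le_encard (X \ {e})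
          rw [ht] at this
          exact_mod_cast this
        rw [hrk _ hXN, hrk _ hYN, hs, hq, hr] at h8
        rw [hrk _ hXN, hs] at h9
        rw [hp] at h7
        rw [hrank, hr, hp, hq]
        norm_cast at h7 h8 h9 ⊢
        omega
  intro k hk X Y hXY hd hX hY
  have : e ∈ X ∪ Y := by rw [hXY, hME]; exact mem_insert _ _
  rcases this with h | h
  · exact main k hk X Y hXY hd hX hY h
  · rw [add_comm (M.eRk X)]
    exact main k hk Y X (by rw [union_comm]; exact hXY) hd.symm hY hX h

theorem no_sep {N : Matroid α} [DecidableEq α] (hN : ThreeConnected N) {V : Type} [AddCommGroup V]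
    [Module (ZMod 2) V] {v : α → V} (hv : Rep (ZMod 2) N v) {a b c : α} (hab : a ≠ b) (hbc : b ≠ c) (hca : c ≠ a)
    {A B : Finset α} (hE : N.E = insert a (insert b (insert c ((A ∪ B : Finset α) : Set α))))
    (ha : a ∉ A ∪ B) (hb : b ∉ A ∪ B) (hc : c ∉ A ∪ B)
    (hAB : Disjoint A B) (hd : Disjoint (S v A) (S v B)) (hy : v b + v c ∈ S v A) (hz : v a + v c ∈ S v B)
    (hz0 : v a + v c ≠ 0) (haX : v a ∉ S v (A ∪ B)) : False := by
  have hAE : (A : Set α) ⊆ N.E := by
    rw [hE, Finset.coe_union]; intro x hx; simp only [mem_insert_iff, mem_union]; tauto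
  have hBE : (B : Set α) ⊆ N.E := by
    rw [hE, Finset.coe_union]; intro x hx; simp only [mem_insert_iff, mem_union]; tauto
  have haE : a ∈ N.E := by rw [hE]; simp
  have hbE : b ∈ N.E := by rw [hE]; simp
  have hcE : c ∈ N.E := by rw [hE]; simp
  have hBne : B.Nonempty := by
    rw [Finset.nonempty_iff_ne_empty]
    rintro rfl
    exact hz0 (by simpa [S] using hz)
  obtain ⟨x, hx⟩ := hBne
  have hcA : c ∉ A := fun h => hc (Finset.mem_union_left _ h)
  have hbA : b ∉ A := fun h => hb (Finset.mem_union_left _ h)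
  have haB : a ∉ B := fun h => ha (Finset.mem_union_right _ h)
  have h1 := hN 2 (Or.inr rfl) (insert b (insert c (A : Set α))) (insert a (B : Set α)) (by
      rw [hE, Finset.coe_union]; ext x; simp only [mem_insert_iff, mem_union]; tauto) (by
      rw [Set.disjoint_left]
      rintro x (rfl | rfl | h1) (h2 | h2)
      · exact hab h2.symm
      · exact hb (Finset.mem_union_right _ h2)
      · exact hca h2
      · exact hc (Finset.mem_union_right _ h2)
      · exact ha (Finset.mem_union_left _ (h2 ▸ h1))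
      · exact Finset.disjoint_left.1 hAB h1 h2) (by
      have : ({b, c} : Set α) ⊆ insert b (insert c (A : Set α)) := by
        intro y hy; simp only [mem_insert_iff, mem_singleton_iff] at hy ⊢; tauto
      have h2 := Set.encard_le_encard this
      rw [Set.encard_pair hbc] at h2
      exact h2) (by
      have : ({a, x} : Set α) ⊆ insert a (B : Set α) := by
        intro y hy; simp only [mem_insert_iff, mem_singleton_iff] at hy ⊢
        rcases hy with rfl | rfl
        · exact Or.inl rfl
        · exact Or.inr hx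
      have h2 := Set.encard_le_encard this
      have hax : a ≠ x := fun h => haB (by rw [h]; exact hx)
      rw [Set.encard_pair hax] at h2
      exact h2)
  have h2 : N.eRk (insert b (insert c (A : Set α))) ≤ N.eRk (A : Set α) + 1 := by
    have hbcl : b ∈ N.closure (insert c (A : Set α)) := by
      rw [mem_cl hv (insert_subset hcE hAE) hbE, ← Finset.coe_insert]
      exact (mem_ins v A c _).2 (Or.inr hy)
    have h3 : insert b (insert c (A : Set α)) ⊆ N.closure (insert c (A : Set α)) :=
      insert_subset hbcl (N.subset_closure _ (insert_subset hcE hAE))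
    have h4 := N.eRk_mono h3
    rw [eRk_closure_eq] at h4
    exact h4.trans (N.eRk_insert_le_add_one c _)
  have h3 : N.eRk (insert a (B : Set α)) ≤ N.eRk (B : Set α) + 1 := N.eRk_insert_le_add_one a _
  have h4 : N.eRk (A : Set α) + N.eRk (B : Set α) + 1 ≤ N.eRank := by
    obtain ⟨I, hI⟩ := N.exists_isBasis (A : Set α) hAE
    obtain ⟨J, hJ⟩ := N.exists_isBasis (B : Set α) hBE
    have e1 := ((hv I).1 hI.indep).2
    have e2 := ((hv J).1 hJ.indep).2
    have hsI : span (ZMod 2) (v '' I) ≤ S v A := span_mono (image_mono hI.subset)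
    have hsJ : span (ZMod 2) (v '' J) ≤ S v B := span_mono (image_mono hJ.subset)
    have e3 := e1.union e2 (hd.mono hsI hsJ)
    have haIJ : a ∉ I ∪ J := by
      rintro (h | h)
      · exact ha (Finset.mem_union_left _ (hI.subset h))
      · exact ha (Finset.mem_union_right _ (hJ.subset h))
    have e4 : LinearIndepOn (ZMod 2) v (insert a (I ∪ J)) := by
      rw [linearIndepOn_insert haIJ]
      refine ⟨e3, fun h => haX ?_⟩
      rw [image_union, span_union] at h
      rw [S_union]
      exact sup_le_sup hsI hsJ h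
    have e5 : N.Indep (insert a (I ∪ J)) := (hv _).2 ⟨insert_subset haE (union_subset (hI.subset.trans hAE)
      (hJ.subset.trans hBE)), e4⟩
    have e6 := e5.encard_le_eRank
    have hIJ : Disjoint I J := by
      rw [Set.disjoint_left]
      intro x hxI hxJ
      exact Finset.disjoint_left.1 hAB (hI.subset hxI) (hJ.subset hxJ)
    rw [Set.encard_insert_of_notMem haIJ, Set.encard_union_eq hIJ, hI.encard_eq_eRk, hJ.encard_eq_eRk] at e6
    exact e6
  obtain ⟨p, hp⟩ := fin_eRk N (A : Set α)
  obtain ⟨q, hq⟩ := fin_eRk N (B : Set α)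
  obtain ⟨r, hr⟩ := fin_eRank N
  obtain ⟨s, hs⟩ := fin_eRk N (insert b (insert c (A : Set α)))
  obtain ⟨t, ht⟩ := fin_eRk N (insert a (B : Set α))
  rw [hr, hs, ht] at h1
  rw [hs, hp] at h2
  rw [ht, hq] at h3
  rw [hp, hq, hr] at h4
  norm_cast at h1 h2 h3 h4
  omega

/-- The same for a matroid with a quad. -/
theorem no_sepM1 {M : Matroid α} [DecidableEq α] (hM : ThreeConnected M) {V : Type} [AddCommGroup V]
    [Module (ZMod 2) V] {v : α → V} (hv : Rep (ZMod 2) M v) {a b c e : α}
    {A B : Finset α} (hE : M.E = insert e (insert a (insert b (insert c ((A ∪ B : Finset α) : Set α)))))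
    (he : e ∉ A ∪ B) (ha : a ∉ A ∪ B) (hb : b ∉ A ∪ B) (hc : c ∉ A ∪ B) (hab : a ≠ b)
    (hAB : Disjoint A B) (hd : Disjoint (S v A) (S v B)) (hz : v a + v c ∈ S v B)
    (haX : v a ∉ S v (A ∪ B)) (hve : v e = v a + v b + v c) (hA : 2 ≤ A.card) : False := by
  have hAE : (A : Set α) ⊆ M.E := by
    rw [hE, Finset.coe_union]; intro x hx; simp only [mem_insert_iff, mem_union]; tauto
  have hBE : (B : Set α) ⊆ M.E := by
    rw [hE, Finset.coe_union]; intro x hx; simp only [mem_insert_iff, mem_union]; tauto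
  have heE : e ∈ M.E := by rw [hE]; simp
  have haE : a ∈ M.E := by rw [hE]; simp
  have hbE : b ∈ M.E := by rw [hE]; simp
  have hcE : c ∈ M.E := by rw [hE]; simp
  have h1 := hM 2 (Or.inr rfl) (A : Set α) (insert e (insert a (insert b (insert c (B : Set α))))) (by
      rw [hE, Finset.coe_union]; ext x; simp only [mem_insert_iff, mem_union]; tauto) (by
      rw [Set.disjoint_left]
      rintro x h1 (h2 | h2 | h2 | h2 | h2)
      · exact he (Finset.mem_union_left _ (h2 ▸ h1))
      · exact ha (Finset.mem_union_left _ (h2 ▸ h1))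
      · exact hb (Finset.mem_union_left _ (h2 ▸ h1))
      · exact hc (Finset.mem_union_left _ (h2 ▸ h1))
      · exact Finset.disjoint_left.1 hAB h1 h2) (by
      rw [Set.encard_coe_eq_coe_finsetCard]; exact_mod_cast hA) (by
      have : ({a, b} : Set α) ⊆ insert e (insert a (insert b (insert c (B : Set α)))) := by
        intro y hy; simp only [mem_insert_iff, mem_singleton_iff] at hy ⊢; tauto
      have h2 := Set.encard_le_encard this
      rw [Set.encard_pair hab] at h2
      exact h2)
  have h2 : M.eRk (insert e (insert a (insert b (insert c (B : Set α))))) ≤ M.eRk (B : Set α) + 1 + 1 := by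
    have hsub : insert b (insert c (B : Set α)) ⊆ M.E := insert_subset hbE (insert_subset hcE hBE)
    have e1 : v a + v b + v c = (v a + v c) + v b := by abel
    have q1 : v a ∈ S v (insert b (insert c B)) :=
      (mem_ins v _ b _).2 (Or.inl ((mem_ins v B c _).2 (Or.inr hz)))
    have q2 : v e ∈ S v (insert b (insert c B)) := by
      rw [hve]
      exact add_mem (add_mem q1 (mem_S v (Finset.mem_insert_self _ _)))
        (mem_S v (Finset.mem_insert_of_mem (Finset.mem_insert_self _ _)))
    have hacl : a ∈ M.closure (insert b (insert c (B : Set α))) := by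
      rw [mem_cl hv hsub haE, ← Finset.coe_insert, ← Finset.coe_insert]
      exact q1
    have hecl : e ∈ M.closure (insert b (insert c (B : Set α))) := by
      rw [mem_cl hv hsub heE, ← Finset.coe_insert, ← Finset.coe_insert]
      exact q2
    have h3 : insert e (insert a (insert b (insert c (B : Set α)))) ⊆ M.closure (insert b (insert c (B : Set α))) :=
      insert_subset hecl (insert_subset hacl (M.subset_closure _ hsub))
    have h4 := M.eRk_mono h3
    rw [eRk_closure_eq] at h4
    exact (h4.trans (M.eRk_insert_le_add_one b _)).trans (add_le_add_left (M.eRk_insert_le_add_one c _) 1)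
  have h4 : M.eRk (A : Set α) + M.eRk (B : Set α) + 1 ≤ M.eRank := by
    obtain ⟨I, hI⟩ := M.exists_isBasis (A : Set α) hAE
    obtain ⟨J, hJ⟩ := M.exists_isBasis (B : Set α) hBE
    have e1 := ((hv I).1 hI.indep).2
    have e2 := ((hv J).1 hJ.indep).2
    have hsI : span (ZMod 2) (v '' I) ≤ S v A := span_mono (image_mono hI.subset)
    have hsJ : span (ZMod 2) (v '' J) ≤ S v B := span_mono (image_mono hJ.subset)
    have e3 := e1.union e2 (hd.mono hsI hsJ)
    have haIJ : a ∉ I ∪ J := by
      rintro (h | h)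
      · exact ha (Finset.mem_union_left _ (hI.subset h))
      · exact ha (Finset.mem_union_right _ (hJ.subset h))
    have e4 : LinearIndepOn (ZMod 2) v (insert a (I ∪ J)) := by
      rw [linearIndepOn_insert haIJ]
      refine ⟨e3, fun h => haX ?_⟩
      rw [image_union, span_union] at h
      rw [S_union]
      exact sup_le_sup hsI hsJ h
    have e5 : M.Indep (insert a (I ∪ J)) := (hv _).2 ⟨insert_subset haE (union_subset (hI.subset.trans hAE)
      (hJ.subset.trans hBE)), e4⟩
    have e6 := e5.encard_le_eRank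
    have hIJ : Disjoint I J := by
      rw [Set.disjoint_left]
      intro x hxI hxJ
      exact Finset.disjoint_left.1 hAB (hI.subset hxI) (hJ.subset hxJ)
    rw [Set.encard_insert_of_notMem haIJ, Set.encard_union_eq hIJ, hI.encard_eq_eRk, hJ.encard_eq_eRk] at e6
    exact e6
  obtain ⟨p, hp⟩ := fin_eRk M (A : Set α)
  obtain ⟨q, hq⟩ := fin_eRk M (B : Set α)
  obtain ⟨r, hr⟩ := fin_eRank M
  obtain ⟨s, hs⟩ := fin_eRk M (insert e (insert a (insert b (insert c (B : Set α)))))
  rw [hr, hs, hp] at h1
  rw [hs, hq] at h2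
  rw [hp, hq, hr] at h4
  norm_cast at h1 h2 h4
  omega

theorem no_sepM {M : Matroid α} [DecidableEq α] (hM : ThreeConnected M) {V : Type} [AddCommGroup V]
    [Module (ZMod 2) V] {v : α → V} (hv : Rep (ZMod 2) M v) {a b c e : α}
    {A B : Finset α} (hE : M.E = insert e (insert a (insert b (insert c ((A ∪ B : Finset α) : Set α)))))
    (he : e ∉ A ∪ B) (ha : a ∉ A ∪ B) (hb : b ∉ A ∪ B) (hc : c ∉ A ∪ B) (hab : a ≠ b)
    (hAB : Disjoint A B) (hd : Disjoint (S v A) (S v B)) (hy : v b + v c ∈ S v A) (hz : v a + v c ∈ S v B)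
    (haX : v a ∉ S v (A ∪ B)) (hbX : v b ∉ S v (A ∪ B)) (hve : v e = v a + v b + v c)
    (h3 : 3 ≤ (A ∪ B).card) : False := by
  rw [Finset.card_union_of_disjoint hAB] at h3
  by_cases hA : 2 ≤ A.card
  · exact no_sepM1 hM hv hE he ha hb hc hab hAB hd hz haX hve hA
  · rw [Finset.union_comm] at he ha hb hc haX hbX
    refine no_sepM1 hM hv (A := B) (B := A) (a := b) (b := a) (c := c) (e := e) ?_ he hb ha hc hab.symm hAB.symm
      hd.symm hy hbX (by rw [hve]; abel) (by omega)
    rw [hE, Finset.union_comm]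
    ext x; simp only [mem_insert_iff]; tauto

end con

end Pool.Agent.H2.TE
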