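import Pool.Agent.H2.TE.Non

set_option autoImplicit false

namespace Pool.Agent.H2.TE

open Submodule Set Matroid

/-- Vectors with a functional which is `1` on the cocircuit `T` and `0` outside it. -/
theorem norm {α V K : Type} [Field K] [AddCommGroup V] [Module K V] {N : Matroid α} {w : α → V} (hw : Rep K N w)
    {T : Set α} (hT : N.IsCocircuit T) :
    ∃ (w1 : α → V) (g : V →ₗ[K] K), Rep K N w1 ∧ (∀ x ∈ T, g (w1 x) = 1) ∧ ∀ x ∈ N.E \ T, g (w1 x) = 0 := by
  have hmin := isCocircuit_iff_minimal_compl_nonspanning.1 hT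
  have hTE : T ⊆ N.E := hT.subset_ground
  have hns : ¬ N.Spanning (N.E \ T) := hmin.prop
  have hsp : ∀ x ∈ T, N.Spanning (insert x (N.E \ T)) := by
    intro x hx
    have h1 : T \ {x} ⊂ T := by
      refine ⟨sdiff_subset, fun h => (h hx).2 rfl⟩
    have h2 := hmin.not_prop_of_lt h1
    rw [not_not] at h2
    have h3 : N.E \ (T \ {x}) = insert x (N.E \ T) := by
      ext y
      simp only [mem_sdiff, mem_singleton_iff, mem_insert_iff, not_and, not_not]
      constructor
      · rintro ⟨h4, h5⟩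
        by_cases hy : y ∈ T
        · exact Or.inl (h5 hy)
        · exact Or.inr ⟨h4, hy⟩
      · rintro (rfl | ⟨h4, h5⟩)
        · exact ⟨hTE hx, fun _ => rfl⟩
        · exact ⟨h4, fun h => absurd h h5⟩
    rwa [h3] at h2
  obtain ⟨a, ha⟩ := hT.nonempty
  have haE := hTE ha
  have hXE : N.E \ T ⊆ N.E := sdiff_subset
  have h1 : w a ∉ span K (w '' (N.E \ T)) := by
    rw [← mem_cl hw hXE haE]
    intro h
    apply hns
    have h2 := (hsp a ha).closure_eq
    rw [closure_insert_eq_of_mem_closure h] at h2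
    exact (spanning_iff_closure_eq hXE).2 h2
  obtain ⟨g, hg, hker⟩ := Submodule.exists_le_ker_of_notMem h1
  have hgX : ∀ x ∈ N.E \ T, g (w x) = 0 := fun x hx => hker (subset_span ⟨x, hx, rfl⟩)
  have hgT : ∀ x ∈ T, g (w x) ≠ 0 := by
    intro x hx h0
    apply hg
    have h2 : w a ∈ span K (w '' insert x (N.E \ T)) := by
      rw [← mem_cl hw (insert_subset (hTE hx) hXE) haE, (hsp x hx).closure_eq]
      exact haE
    refine gspan ?_ h2
    rintro _ ⟨y, (rfl | hy), rfl⟩
    · exact h0
    · exact hgX y hy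
  classical
  let u : α → Kˣ := fun x => if h : g (w x) = 0 then 1 else (Units.mk0 _ h)⁻¹
  refine ⟨fun x => u x • w x, g, fun I => ?_, fun x hx => ?_, fun x hx => ?_⟩
  · rw [hw I]
    refine and_congr_right fun _ => ?_
    exact (LinearIndependent.units_smul_iff (fun x : I => w x) (fun x : I => u x)).symm
  · have h2 : g (u x • w x) = (u x : K) * g (w x) := by
      rw [Units.smul_def, map_smul, smul_eq_mul]
    rw [h2]
    have h3 : u x = (Units.mk0 _ (hgT x hx))⁻¹ := dif_neg (hgT x hx)
    rw [h3]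
    simp [hgT x hx]
  · have h2 : g (u x • w x) = (u x : K) * g (w x) := by
      rw [Units.smul_def, map_smul, smul_eq_mul]
    rw [h2, hgX x hx, mul_zero]

end Pool.Agent.H2.TE
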