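import Mathlib

set_option autoImplicit false

namespace Pool.Agent.H2.TE

open Submodule Set Matroid

/-- `M` is represented over `K` by the vectors `v x`. -/
def Rep {α V : Type} (K : Type) [Field K] [AddCommGroup V] [Module K V] (M : Matroid α) (v : α → V) : Prop :=
  ∀ I : Set α, M.Indep I ↔ I ⊆ M.E ∧ LinearIndepOn K v I

section mat

variable {α V K : Type} [Field K] [AddCommGroup V] [Module K V]

theorem lin_aug [Finite α] (v : α → V)
    {I J : Set α} (hI : LinearIndepOn K v I) (hJ : LinearIndepOn K v J) (h : I.ncard < J.ncard) :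
    ∃ e ∈ J, e ∉ I ∧ LinearIndepOn K v (insert e I) := by
  classical
  by_contra hcon
  push Not at hcon
  haveI : Fintype J := Fintype.ofFinite J
  haveI : Fintype (v '' I) := Fintype.ofFinite _
  have h1 : Set.range (fun j : J => v j) ⊆ Submodule.span K (v '' I) := by
    rintro x ⟨j, rfl⟩
    by_cases hj : (j : α) ∈ I
    · exact Submodule.subset_span ⟨j, hj, rfl⟩
    · by_contra hx
      exact hcon j j.2 hj ((linearIndepOn_insert hj).2 ⟨hI, hx⟩)
  have h2 := linearIndependent_le_span_aux' (fun j : J => v j) hJ (v '' I) h1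
  have h3 : Fintype.card J = J.ncard := by
    rw [Set.ncard_eq_toFinset_card' J, Set.toFinset_card]
  have h4 : Fintype.card (v '' I) ≤ I.ncard := by
    rw [← Set.toFinset_card, ← Set.ncard_eq_toFinset_card']
    exact Set.ncard_image_le (Set.toFinite I)
  omega

/-- The matroid on `E` which is represented by the vectors `v x`. -/
def linMat (K : Type) [Field K] [Module K V] [Finite α] (E : Set α) (v : α → V) : Matroid α :=
  (IndepMatroid.ofFinite (E := Set.univ) Set.finite_univ (fun I => LinearIndepOn K v I)
    (linearIndepOn_empty K v) (fun _ _ hJ h => hJ.mono h) (fun _ _ hI hJ h => lin_aug v hI hJ h)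
    fun I _ => Set.subset_univ I).matroid ↾ E

theorem linMat_rep [Finite α] (E : Set α) (v : α → V) : Rep K (linMat K E v) v := by
  intro I
  unfold linMat
  rw [restrict_indep_iff, IndepMatroid.matroid_indep_iff, IndepMatroid.ofFinite_indep, restrict_ground_eq, and_comm]

theorem linMat_E [Finite α] (E : Set α) (v : α → V) : (linMat K E v).E = E := rfl

/-- The closure and the span. -/
theorem mem_cl {M : Matroid α} {v : α → V} (hv : Rep K M v) {Y : Set α} (hY : Y ⊆ M.E) {x : α} (hx : x ∈ M.E) :
    x ∈ M.closure Y ↔ v x ∈ span K (v '' Y) := by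
  have h0 : ∀ I : Set α, M.Indep I → ∀ z ∈ M.E, (z ∈ M.closure I ↔ v z ∈ span K (v '' I)) := by
    intro I hI z hz
    by_cases hzI : z ∈ I
    · exact iff_of_true (M.mem_closure_of_mem hzI hI.subset_ground) (subset_span ⟨z, hzI, rfl⟩)
    · rw [← not_iff_not, hI.notMem_closure_iff_of_notMem hzI hz, hv, linearIndepOn_insert hzI]
      have := (hv I).1 hI
      constructor
      · exact fun h => h.2.2
      · exact fun h => ⟨insert_subset hz hI.subset_ground, this.2, h⟩
  obtain ⟨I, hI⟩ := M.exists_isBasis Y hY
  rw [← hI.closure_eq_closure, h0 I hI.indep x hx]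
  have h1 : span K (v '' Y) = span K (v '' I) := by
    refine le_antisymm (span_le.2 ?_) (span_mono (image_mono hI.subset))
    rintro _ ⟨y, hy, rfl⟩
    exact (h0 I hI.indep y (hY hy)).1 (hI.subset_closure hy)
  rw [h1]

/-- A vector is replaced by its image modulo another one. -/
theorem rep_quot {v : α → V} {k : α} {J : Set α} (hk : k ∉ J) (f : V →ₗ[K] K) (hf : f (v k) = -1) :
    LinearIndepOn K v (insert k J) ↔ LinearIndepOn K (fun x => v x + f (v x) • v k) J := by
  have hk0 : v k ≠ 0 := by
    intro h
    rw [h, map_zero] at hf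
    exact (neg_ne_zero.2 one_ne_zero) hf.symm
  have h1 : LinearIndepOn K v {k} := by
    rw [linearIndepOn_singleton_iff]; exact hk0
  have h2 : Disjoint ({k} : Set α) J := by
    rw [Set.disjoint_singleton_left]; exact hk
  rw [← Set.singleton_union, linearIndepOn_union_iff_quotient h2, and_iff_right h1]
  let φ : V →ₗ[K] V := LinearMap.id + f.smulRight (v k)
  have hφ : ∀ x, φ x = x + f x • v k := fun x => rfl
  have hker : LinearMap.ker φ = span K (v '' {k}) := by
    rw [image_singleton]
    ext x
    rw [LinearMap.mem_ker, hφ, mem_span_singleton]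
    constructor
    · intro h
      refine ⟨-f x, ?_⟩
      rw [neg_smul]
      exact (eq_neg_of_add_eq_zero_left h).symm
    · rintro ⟨a, rfl⟩
      rw [map_smul, hf]
      simp
  have hle : span K (v '' {k}) ≤ LinearMap.ker φ := hker.ge
  let ψ := (span K (v '' {k})).liftQ φ hle
  have hψ : LinearMap.ker ψ = ⊥ := Submodule.ker_liftQ_eq_bot _ _ _ hker.le
  have h3 := LinearMap.linearIndependent_iff (v := fun x : J => (span K (v '' {k})).mkQ (v x)) ψ hψ
  exact h3.symm

end mat

end Pool.Agent.H2.TE
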