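import Pool.Agent.H2.TE.Conn

set_option autoImplicit false

namespace Pool.Agent.H2.TE

open Submodule Set Matroid

theorem pair {α V K W : Type} [DecidableEq α] [AddCommGroup V] [Module (ZMod 2) V] [Field K] [AddCommGroup W]
    [Module K W] {M : Matroid α} {v : α → V} {w : α → W} (hv : Rep (ZMod 2) M v) (hw : Rep K M w) {a b c e : α}
    (haE : a ∈ M.E) (hbE : b ∈ M.E) (hcE : c ∈ M.E) (heE : e ∈ M.E) {J : Finset α} (hJ : (J : Set α) ⊆ M.E)
    (h1 : v a + v b ∈ S v J) (h2 : v b + v c ∉ S v J) (hb : v b ∉ S v J) (he : v e = v a + v b + v c)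
    {r s t : K} (hwe : w e = r • w a + s • w b + t • w c) :
    r • w a + s • w b ∈ span K (w '' (J : Set α)) := by
  have tr : ∀ Y : Set α, Y ⊆ M.E → ∀ x ∈ M.E, (v x ∈ span (ZMod 2) (v '' Y) ↔ w x ∈ span K (w '' Y)) := by
    intro Y hY x hx
    rw [← mem_cl hv hY hx, ← mem_cl hw hY hx]
  have k1 : w b ∈ span K (w '' insert a (J : Set α)) := by
    rw [← tr _ (insert_subset haE hJ) b hbE, ← Finset.coe_insert]
    exact (mem_ins v J a _).2 (Or.inr (by rwa [add_comm]))
  have k2 : w b ∉ span K (w '' insert c (J : Set α)) := by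
    rw [← tr _ (insert_subset hcE hJ) b hbE, ← Finset.coe_insert]
    intro h
    rcases (mem_ins v J c _).1 h with h | h
    · exact hb h
    · exact h2 h
  have k3 : w e ∈ span K (w '' insert c (J : Set α)) := by
    rw [← tr _ (insert_subset hcE hJ) e heE, ← Finset.coe_insert]
    refine (mem_ins v J c _).2 (Or.inr ?_)
    rw [he, add_assoc, two, add_zero]
    exact h1
  rw [image_insert_eq, mem_span_insert] at k1 k3
  obtain ⟨l, z, hz, hl⟩ := k1
  obtain ⟨m, z', hz', hm⟩ := k3
  have h3 : (r + s * l) • w a = (m - t) • w c + (z' - s • z) := by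
    have e1 : r • w a + s • w b + t • w c = m • w c + z' := by rw [← hwe, hm]
    rw [hl] at e1
    have e2 : (r + s * l) • w a = (r • w a + s • (l • w a + z) + t • w c) - t • w c - s • z := by
      module
    rw [e2, e1]
    module
  by_cases h0 : r + s * l = 0
  · have h4 : r • w a + s • w b = (r + s * l) • w a + s • z := by
      rw [hl]; module
    rw [h4, h0, zero_smul, zero_add]
    exact smul_mem _ _ hz
  · exfalso
    apply k2
    have h5 : w a ∈ span K (w '' insert c (J : Set α)) := by
      have e3 : w a = (r + s * l)⁻¹ • ((m - t) • w c + (z' - s • z)) := by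
        rw [← h3, smul_smul, inv_mul_cancel₀ h0, one_smul]
      rw [e3]
      refine smul_mem _ _ (add_mem (smul_mem _ _ (subset_span ⟨c, mem_insert _ _, rfl⟩)) ?_)
      have hle : span K (w '' (J : Set α)) ≤ span K (w '' insert c (J : Set α)) :=
        span_mono (image_mono (subset_insert _ _))
      exact sub_mem (hle hz') (smul_mem _ _ (hle hz))
    rw [hl]
    refine add_mem (smul_mem _ _ h5) ?_
    exact span_mono (image_mono (subset_insert _ _)) hz

/-- There is no decomposition of the vectors of `X` which separates `v b + v c` and `v a + v c`. -/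
def NoSep {α V : Type} [DecidableEq α] [AddCommGroup V] [Module (ZMod 2) V] (v : α → V) (X : Finset α)
    (a b c : α) : Prop :=
  ∀ A B : Finset α, A ∪ B = X → Disjoint A B → Disjoint (S v A) (S v B) → v b + v c ∈ S v A →
    v a + v c ∈ S v B → False

theorem pairX {α V K W : Type} [DecidableEq α] [AddCommGroup V] [Module (ZMod 2) V] [Field K]
    [AddCommGroup W] [Module K W] {M : Matroid α} {v : α → V} {w : α → W} (hv : Rep (ZMod 2) M v)
    (hw : Rep K M w) {a b c e : α} {X : Finset α} (hns : NoSep v X a b c)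
    (hE : insert a (insert b (insert c (X : Set α))) ⊆ M.E) (heE : e ∈ M.E)
    (h1 : v a + v c ∈ S v X) (h2 : v b + v c ∈ S v X) (haX : v a ∉ S v X) (hbX : v b ∉ S v X)
    (hac0 : v a + v c ≠ 0) (hbc0 : v b + v c ≠ 0)
    (he : v e = v a + v b + v c)
    {r s t : K} (hwe : w e = r • w a + s • w b + t • w c) :
    r • w a + s • w b ∈ span K (w '' (X : Set α)) := by
  have haE : a ∈ M.E := hE (by simp)
  have hbE : b ∈ M.E := hE (by simp)
  have hcE : c ∈ M.E := hE (by simp)
  have hXE : (X : Set α) ⊆ M.E := fun x hx => hE (Or.inr (Or.inr (Or.inr hx)))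
  rcases key v X (v b + v c) (v a + v c) h2 h1 hbc0 hac0 with ⟨J, g1, g2, g3⟩ | ⟨A, B, g1, g2, g3, g4, g5⟩
  · have g2' : v a + v b ∈ S v J := by
      have e1 : v b + v c + (v a + v c) = v a + v b := by
        rw [add_add_add_comm, two, add_zero, add_comm]
      rwa [e1] at g2
    have hJX : (J : Set α) ⊆ (X : Set α) := by exact_mod_cast g1
    have := pair hv hw haE hbE hcE heE (hJX.trans hXE) g2' g3
      (fun h => hbX (S_mono v g1 h)) he hwe
    exact span_mono (image_mono hJX) this
  · exact (hns A B g1 g2 g3 g4 g5).elim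

theorem nonrep {α V K W : Type} [DecidableEq α] [AddCommGroup V] [Module (ZMod 2) V] [Field K]
    [AddCommGroup W] [Module K W] (hK : (2 : K) ≠ 0) {M : Matroid α} {v : α → V} {w : α → W}
    (hv : Rep (ZMod 2) M v) (hw : Rep K M w) {a b c e : α} {X : Finset α}
    (hE : insert a (insert b (insert c (X : Set α))) ⊆ M.E) (heE : e ∈ M.E)
    (n1 : NoSep v X a b c) (n2 : NoSep v X b c a) (n3 : NoSep v X c a b)
    (h1 : v a + v c ∈ S v X) (h2 : v b + v c ∈ S v X) (haX : v a ∉ S v X) (hbX : v b ∉ S v X) (hcX : v c ∉ S v X)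
    (hab0 : v a + v b ≠ 0) (hac0 : v a + v c ≠ 0) (hbc0 : v b + v c ≠ 0)
    (he : v e = v a + v b + v c) : False := by
  have haE : a ∈ M.E := hE (by simp)
  have hbE : b ∈ M.E := hE (by simp)
  have hcE : c ∈ M.E := hE (by simp)
  have hXE : (X : Set α) ⊆ M.E := fun x hx => hE (Or.inr (Or.inr (Or.inr hx)))
  have h3 : v a + v b ∈ S v X := by
    have := (S v X).add_mem h1 h2
    rwa [add_add_add_comm, two, add_zero] at this
  have tr : ∀ Y : Set α, Y ⊆ M.E → ∀ x ∈ M.E, (v x ∈ span (ZMod 2) (v '' Y) ↔ w x ∈ span K (w '' Y)) := by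
    intro Y hY x hx
    rw [← mem_cl hv hY hx, ← mem_cl hw hY hx]
  have habcE : ({a, b, c} : Set α) ⊆ M.E := by
    rintro x (rfl | rfl | rfl)
    exacts [haE, hbE, hcE]
  have h4 : w e ∈ span K (w '' {a, b, c}) := by
    rw [← tr _ habcE e heE, he]
    refine add_mem (add_mem ?_ ?_) ?_
    · exact subset_span ⟨a, by simp, rfl⟩
    · exact subset_span ⟨b, by simp, rfl⟩
    · exact subset_span ⟨c, by simp, rfl⟩
  rw [image_insert_eq, image_insert_eq, image_singleton, mem_span_triple] at h4
  obtain ⟨r, s, t, hrst⟩ := h4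
  have hwe : w e = r • w a + s • w b + t • w c := hrst.symm
  have q1 := pairX hv hw n1 hE heE h1 h2 haX hbX hac0 hbc0 he hwe
  have q2 := pairX hv hw (a := b) (b := c) (c := a) (r := s) (s := t) (t := r) n2
    (fun x hx => hE (by simp only [mem_insert_iff] at hx ⊢; tauto)) heE
    (by rwa [add_comm]) (by rwa [add_comm]) hbX hcX (by rwa [add_comm]) (by rwa [add_comm])
    (by rw [he]; abel) (by rw [hwe]; abel)
  have q3 := pairX hv hw (a := c) (b := a) (c := b) (r := t) (s := r) (t := s) n3
    (fun x hx => hE (by simp only [mem_insert_iff] at hx ⊢; tauto)) heE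
    (by rwa [add_comm]) h3 hcX haX (by rwa [add_comm]) hab0
    (by rw [he]; abel) (by rw [hwe]; abel)
  have hr0 : r ≠ 0 := by
    rintro rfl
    rw [zero_smul, zero_add] at hwe
    have h5 : w e ∈ span K (w '' {b, c}) := by
      rw [hwe]
      refine add_mem (smul_mem _ _ ?_) (smul_mem _ _ ?_)
      · exact subset_span ⟨b, by simp, rfl⟩
      · exact subset_span ⟨c, by simp, rfl⟩
    have hbcE : ({b, c} : Set α) ⊆ M.E := by
      rintro x (rfl | rfl)
      exacts [hbE, hcE]
    rw [← tr _ hbcE e heE, he, image_insert_eq, image_singleton, mem_span_pair] at h5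
    obtain ⟨p, q, hpq⟩ := h5
    have zd : ∀ x : ZMod 2, x = 0 ∨ x = 1 := by decide
    have hp := zd p
    have hq := zd q
    rcases hp with rfl | rfl <;> rcases hq with rfl | rfl
    · simp only [zero_smul, add_zero] at hpq
      apply hcX
      have : v c = v a + v b := (eq_of _ _ hpq.symm).symm
      rw [this]; exact h3
    · simp only [zero_smul, one_smul, zero_add] at hpq
      apply hab0
      have := congrArg (· + v c) hpq
      simp only [two, add_assoc, add_zero] at this
      exact this.symm
    · simp only [zero_smul, one_smul, add_zero] at hpq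
      apply hac0
      have := congrArg (· + v b) hpq
      simp only [two] at this
      rw [add_right_comm, add_assoc (v a), two, add_zero] at this
      exact this.symm
    · simp only [one_smul] at hpq
      apply haX
      have e1 := congrArg (· + (v b + v c)) hpq
      simp only [two] at e1
      rw [add_assoc (v a), add_assoc (v a), two, add_zero] at e1
      rw [← e1]
      exact zero_mem _
  have h6 : (2 * r) • w a ∈ span K (w '' (X : Set α)) := by
    have := add_mem (sub_mem q1 q2) q3
    have e1 : r • w a + s • w b - (s • w b + t • w c) + (t • w c + r • w a) = (2 * r) • w a := by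
      rw [two_mul, add_smul]; abel
    rwa [e1] at this
  have h7 : w a ∈ span K (w '' (X : Set α)) := by
    have := smul_mem _ (2 * r)⁻¹ h6
    rwa [smul_smul, inv_mul_cancel₀ (mul_ne_zero hK hr0), one_smul] at this
  rw [← tr _ hXE a haE] at h7
  exact haX h7

end Pool.Agent.H2.TE
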