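import Pool.Agent.H2.TE.Quad

set_option autoImplicit false

namespace Pool.Agent.H2.TE

open Submodule Set Matroid

section small

variable {α V : Type} [AddCommGroup V] [Module (ZMod 2) V]

lemma li_pair {v : α → V} {x y : α} (hxy : x ≠ y) (hy : v y ≠ 0) (hx : v x ≠ 0) (h : v x + v y ≠ 0) :
    LinearIndepOn (ZMod 2) v {x, y} := by
  classical
  have h1 : x ∉ ({y} : Set α) := hxy
  rw [linearIndepOn_insert h1, linearIndepOn_singleton_iff]
  refine ⟨hy, fun hh => ?_⟩
  have h2 : v x ∈ S v (insert y ∅) := by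
    simpa [S] using hh
  rcases (mem_ins v ∅ y _).1 h2 with h3 | h3
  · exact hx (by simpa [S] using h3)
  · exact h (by simpa [S] using h3)

lemma li_tri {v : α → V} {x y z : α} (hxy : x ≠ y) (hxz : x ≠ z) (hyz : y ≠ z) (hz : v z ≠ 0) (hy : v y ≠ 0)
    (hyz' : v y + v z ≠ 0) (hx : v x ≠ 0) (hxy' : v x + v y ≠ 0) (hxz' : v x + v z ≠ 0)
    (h : v x + v y + v z ≠ 0) : LinearIndepOn (ZMod 2) v {x, y, z} := by
  classical
  have h1 : x ∉ ({y, z} : Set α) := by
    rintro (h | h)
    · exact hxy h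
    · exact hxz h
  rw [linearIndepOn_insert h1]
  refine ⟨li_pair hyz hz hy hyz', fun hh => ?_⟩
  have h2 : v x ∈ S v (insert y (insert z ∅)) := by
    simpa [S] using hh
  rcases (mem_ins v _ y _).1 h2 with h3 | h3
  · rcases (mem_ins v _ z _).1 h3 with h4 | h4
    · exact hx (by simpa [S] using h4)
    · exact hxz' (by simpa [S] using h4)
  · rcases (mem_ins v _ z _).1 h3 with h4 | h4
    · exact hxy' (by simpa [S] using h4)
    · exact h (by simpa [S] using h4)

end small

/-- The data of a binary matroid with a quad `{e, a, b, c}`. -/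
structure QD {α V : Type} [AddCommGroup V] [Module (ZMod 2) V] (M : Matroid α) (v : α → V)
    (f : V →ₗ[ZMod 2] (ZMod 2)) (a b c e : α) (X : Finset α) : Prop where
  rep : Rep (ZMod 2) M v
  hE : M.E = insert e (insert a (insert b (insert c (X : Set α))))
  he : e ∉ insert a (insert b (insert c (X : Set α)))
  ab : a ≠ b
  bc : b ≠ c
  ca : c ≠ a
  aX : a ∉ X
  bX : b ∉ X
  cX : c ∉ X
  fa : f (v a) = 1
  fb : f (v b) = 1
  fc : f (v c) = 1
  fX : ∀ x ∈ (X : Set α), f (v x) = 0
  hve : v e = v a + v b + v c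
  ab0 : v a + v b ≠ 0
  bc0 : v b + v c ≠ 0
  ca0 : v c + v a ≠ 0
  acS : v a + v c ∈ S v X
  bcS : v b + v c ∈ S v X

section qd

variable {α V : Type} [AddCommGroup V] [Module (ZMod 2) V] {M : Matroid α} {v : α → V}
  {f : V →ₗ[ZMod 2] (ZMod 2)} {a b c e : α} {X : Finset α}

lemma QD.fe (h : QD M v f a b c e X) : f (v e) = 1 := by
  rw [h.hve, map_add, map_add, h.fa, h.fb, h.fc]; decide

lemma QD.fS (h : QD M v f a b c e X) {x : V} (hx : x ∈ S v X) : f x = 0 := by
  refine gspan ?_ hx
  rintro _ ⟨y, hy, rfl⟩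
  exact h.fX y hy

lemma QD.notS (h : QD M v f a b c e X) {x : V} (hx : f x = 1) : x ∉ S v X := fun hh => by
  have := h.fS hh
  rw [hx] at this
  exact one_ne_zero this

lemma QD.yd (h : QD M v f a b c e X) : YD (ZMod 2) v (fun x => v x + f (v x) • v e) f a b c (X : Set α) :=
  yd2 h.fa h.fb h.fc h.fX h.ab h.bc h.ca h.aX h.bX h.cX h.hve

theorem QD.non [DecidableEq α] (h : QD M v f a b c e X) (n1 : NoSep v X a b c) (n2 : NoSep v X b c a)
    (n3 : NoSep v X c a b) {K : Type} [Field K] (hK : (2 : K) ≠ 0) : ¬ Representable K M := by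
  rintro ⟨m', w, hw⟩
  exact nonrep hK h.rep hw (by rw [h.hE]; exact subset_insert _ _) (by rw [h.hE]; exact mem_insert _ _) n1 n2 n3
    h.acS h.bcS (h.notS h.fa) (h.notS h.fb) (h.notS h.fc) h.ab0 (by rw [add_comm]; exact h.ca0) h.bc0 h.hve

end qd

/-- A quad gives the data. -/
theorem exists_qd {α V : Type} [Finite α] [AddCommGroup V] [Module (ZMod 2) V] {M : Matroid α} {D : Set α} {e : α}
    {v0 : α → V} (hv0' : Rep (ZMod 2) M v0)
    (hC : M.IsCircuit D) (hD : M.IsCocircuit D) (h4 : D.encard = 4) (heD : e ∈ D) :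
    ∃ (v : α → V) (f : V →ₗ[ZMod 2] (ZMod 2)) (a b c : α) (X : Finset α),
      QD M v f a b c e X ∧ D = {e, a, b, c} := by
  classical
  obtain ⟨v, f, hv, hfT, hfX⟩ := norm hv0' hD
  have h3 : (D \ {e}).encard = 3 := by
    have h5 := Set.encard_sdiff_singleton_add_one heD
    rw [h4] at h5
    obtain ⟨p, hp⟩ := fin_enc (D \ {e})
    rw [hp] at h5 ⊢
    norm_cast at h5 ⊢
    omega
  obtain ⟨a, b, c, hab, hac, hbc, habc⟩ := Set.encard_eq_three.1 h3
  have hDe : D = insert e {a, b, c} := by
    rw [← habc, Set.insert_sdiff_singleton, Set.insert_eq_of_mem heD]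
  have heabc : e ∉ ({a, b, c} : Set α) := by
    rw [← habc]; exact fun h => h.2 rfl
  have hea : e ≠ a := fun h => heabc (by rw [h]; simp)
  have heb : e ≠ b := fun h => heabc (by rw [h]; simp)
  have hec : e ≠ c := fun h => heabc (by rw [h]; simp)
  have hca : c ≠ a := hac.symm
  have hDE : D ⊆ M.E := hC.subset_ground
  have haD : a ∈ D := by rw [hDe]; simp
  have hbD : b ∈ D := by rw [hDe]; simp
  have hcD : c ∈ D := by rw [hDe]; simp
  have fe := hfT e heD
  have fa := hfT a haD
  have fb := hfT b hbD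
  have fc := hfT c hcD
  -- pairs
  have hpr : ∀ x ∈ D, ∀ y ∈ D, x ≠ y → v x + v y ≠ 0 := by
    intro x hx y hy hxy h0
    have h1 : ({x, y} : Set α) ⊂ D := by
      refine ⟨insert_subset hx (singleton_subset_iff.2 hy), fun h => ?_⟩
      have h2 := Set.encard_le_encard h
      rw [h4, Set.encard_pair hxy] at h2
      exact absurd h2 (by decide)
    have h2 := ((hv _).1 (hC.ssubset_indep h1)).2
    rw [linearIndepOn_insert (by rw [mem_singleton_iff]; exact hxy)] at h2
    apply h2.2
    rw [eq_of _ _ h0]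
    exact subset_span ⟨y, rfl, rfl⟩
  have hve : v e = v a + v b + v c := by
    have h1 := hC.mem_closure_sdiff_singleton_of_mem heD
    rw [habc, mem_cl hv (by rw [← habc]; exact sdiff_subset.trans hDE) (hDE heD)] at h1
    have h2 : v e ∈ S v (insert a (insert b (insert c ∅))) := by
      simpa [S] using h1
    have h0 : ∀ x : V, x ∈ S v (∅ : Finset α) → x = 0 := by
      intro x hx; simpa [S] using hx
    rcases (mem_ins v _ a _).1 h2 with h2 | h2 <;> rcases (mem_ins v _ b _).1 h2 with h2 | h2 <;>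
      rcases (mem_ins v _ c _).1 h2 with h2 | h2 <;> have h2' := h0 _ h2 <;> have h2'' := congrArg f h2' <;>
      simp only [map_add, map_zero, fe, fa, fb, fc] at h2''
    · exact absurd h2'' (by decide)
    · exact absurd h2' (hpr e heD c hcD hec)
    · exact absurd h2' (hpr e heD b hbD heb)
    · exact absurd h2'' (by decide)
    · exact absurd h2' (hpr e heD a haD hea)
    · exact absurd h2'' (by decide)
    · exact absurd h2'' (by decide)
    · rw [add_assoc, add_assoc] at h2'
      rw [eq_of _ _ h2']; abel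
  set X : Finset α := (Set.toFinite (M.E \ D)).toFinset with hX
  have hXc : (X : Set α) = M.E \ D := by rw [hX]; exact Set.Finite.coe_toFinset _
  have hmX : ∀ x, x ∈ X ↔ x ∈ M.E ∧ x ∉ D := by
    intro x
    rw [← Finset.mem_coe, hXc]; rfl
  have haX : a ∉ X := by rw [hmX]; exact fun h => h.2 haD
  have hbX : b ∉ X := by rw [hmX]; exact fun h => h.2 hbD
  have hcX : c ∉ X := by rw [hmX]; exact fun h => h.2 hcD
  have heX : e ∉ X := by rw [hmX]; exact fun h => h.2 heD
  have hE : M.E = insert e (insert a (insert b (insert c (X : Set α)))) := by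
    rw [hXc, hDe]
    ext x
    simp only [mem_insert_iff, mem_sdiff, mem_singleton_iff]
    constructor
    · intro hx
      by_cases h0 : x = e
      · exact Or.inl h0
      by_cases h1 : x = a
      · exact Or.inr (Or.inl h1)
      by_cases h2 : x = b
      · exact Or.inr (Or.inr (Or.inl h2))
      by_cases h3 : x = c
      · exact Or.inr (Or.inr (Or.inr (Or.inl h3)))
      exact Or.inr (Or.inr (Or.inr (Or.inr ⟨hx, by tauto⟩)))
    · rintro (rfl | rfl | rfl | rfl | ⟨hx, -⟩)
      exacts [hDE heD, hDE haD, hDE hbD, hDE hcD, hx]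
  have fX : ∀ x ∈ (X : Set α), f (v x) = 0 := by
    intro x hx
    rw [hXc] at hx
    exact hfX x hx
  have fS : ∀ x, x ∈ S v X → f x = 0 := by
    intro x hx
    refine gspan ?_ hx
    rintro _ ⟨y, hy, rfl⟩
    exact fX y hy
  have hmin := isCocircuit_iff_minimal_compl_nonspanning.1 hD
  have hspanX : ∀ x ∈ D, ∀ y ∈ M.E, v y ∈ S v X ∨ v y + v x ∈ S v X := by
    intro x hx y hy
    have h1 : D \ {x} ⊂ D := ⟨sdiff_subset, fun h => (h hx).2 rfl⟩
    have h2 := hmin.not_prop_of_lt h1
    rw [not_not] at h2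
    have h3 : M.E \ (D \ {x}) = ((insert x X : Finset α) : Set α) := by
      rw [Finset.coe_insert, hXc]
      ext y
      simp only [mem_sdiff, mem_singleton_iff, mem_insert_iff, not_and, not_not]
      constructor
      · rintro ⟨h4, h5⟩
        by_cases hy : y ∈ D
        · exact Or.inl (h5 hy)
        · exact Or.inr ⟨h4, hy⟩
      · rintro (rfl | ⟨h4, h5⟩)
        · exact ⟨hDE hx, fun _ => rfl⟩
        · exact ⟨h4, fun h => absurd h h5⟩
    rw [h3] at h2
    have h4 : y ∈ M.closure ((insert x X : Finset α) : Set α) := by rw [h2.closure_eq]; exact hy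
    rw [mem_cl hv h2.subset_ground hy] at h4
    exact (mem_ins v X x _).1 h4
  have haS : v a ∉ S v X := fun h => by have := fS _ h; rw [fa] at this; exact one_ne_zero this
  have hbS : v b ∉ S v X := fun h => by have := fS _ h; rw [fb] at this; exact one_ne_zero this
  refine ⟨v, f, a, b, c, X, ⟨hv, hE, ?_, hab, hbc, hca, haX, hbX, hcX, fa, fb, fc, fX, hve,
    hpr a haD b hbD hab, hpr b hbD c hcD hbc, hpr c hcD a haD hca, (hspanX c hcD a (hDE haD)).resolve_left haS,
    (hspanX c hcD b (hDE hbD)).resolve_left hbS⟩, hDe⟩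
  rintro (h | h | h | h)
  exacts [hea h, heb h, hec h, heX h]

theorem quad_non {α V : Type} [Finite α] [AddCommGroup V] [Module (ZMod 2) V] {M : Matroid α} {D : Set α} {e : α}
    (hM : ThreeConnected M) {v0 : α → V} (hv0 : Rep (ZMod 2) M v0) (h7 : 7 ≤ M.E.encard) (hC : M.IsCircuit D)
    (hD : M.IsCocircuit D) (h4 : D.encard = 4) (heD : e ∈ D) {K W : Type} [Field K] [AddCommGroup W] [Module K W]
    (hK : (2 : K) ≠ 0) {w : α → W} (hw : Rep K M w) : False := by
  classical
  obtain ⟨v, f, a, b, c, X, q, hDe⟩ := exists_qd hv0 hC hD h4 heD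
  have hX3 : 3 ≤ X.card := by
    have h1 : M.E = D ∪ (X : Set α) := by
      rw [q.hE, hDe]; ext x; simp only [mem_insert_iff, mem_union, mem_singleton_iff]; tauto
    have h2 := Set.encard_union_le D (X : Set α)
    rw [← h1, h4, Set.encard_coe_eq_coe_finsetCard] at h2
    have h3 := h7.trans h2
    have h5 : (7 : ℕ) ≤ 4 + X.card := by exact_mod_cast h3
    omega
  have heX : e ∉ X := fun h => q.he (Or.inr (Or.inr (Or.inr h)))
  have hsep : ∀ (a b c : α), a ≠ b → (M.E = insert e (insert a (insert b (insert c (X : Set α))))) → a ∉ X → b ∉ X →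
      c ∉ X → v e = v a + v b + v c → f (v a) = 1 → f (v b) = 1 → NoSep v X a b c := by
    intro a b c hab hE ha hb hc hve fa fb A B h1 h2 h3 h4 h5
    subst h1
    exact no_sepM hM q.rep hE heX ha hb hc hab h2 h3 h4 h5 (q.notS fa) (q.notS fb) hve hX3
  refine nonrep hK q.rep hw (by rw [q.hE]; exact subset_insert _ _) (by rw [q.hE]; exact mem_insert _ _) ?_ ?_ ?_
    q.acS q.bcS (q.notS q.fa) (q.notS q.fb) (q.notS q.fc) q.ab0 (by rw [add_comm]; exact q.ca0) q.bc0 q.hve
  · exact hsep a b c q.ab q.hE q.aX q.bX q.cX q.hve q.fa q.fb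
  · refine hsep b c a q.bc ?_ q.bX q.cX q.aX ?_ q.fb q.fc
    · rw [q.hE]; ext x; simp only [mem_insert_iff]; tauto
    · rw [q.hve]; abel
  · refine hsep c a b q.ca ?_ q.cX q.aX q.bX ?_ q.fc q.fa
    · rw [q.hE]; ext x; simp only [mem_insert_iff]; tauto
    · rw [q.hve]; abel

theorem partOne {α : Type} [Finite α] {M : Matroid α} {D : Set α} {e : α} (hM : ThreeConnected M)
    (hb : Representable (ZMod 2) M) (h7 : 7 ≤ M.E.encard) (hC : M.IsCircuit D) (hD : M.IsCocircuit D)
    (h4 : D.encard = 4) (heD : e ∈ D) :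
    (∀ (K : Type) [Field K], (2 : K) ≠ 0 → ¬ Representable K M) ∧ (Regular (M ＼ {e}) ↔ Regular (M ／ {e})) := by
  classical
  obtain ⟨m, v0, hv0⟩ := hb
  obtain ⟨v, f, a, b, c, X, q, hDe⟩ := exists_qd hv0 hC hD h4 heD
  refine ⟨fun K _ hK ⟨m', w, hw⟩ => quad_non hM hv0 h7 hC hD h4 heD hK hw, ?_, ?_⟩
  · intro h
    have hsub : ({e} : Set α) ⊂ D := by
      refine ⟨singleton_subset_iff.2 heD, fun h' => ?_⟩
      have h2 := Set.encard_le_encard h'
      rw [h4, Set.encard_singleton] at h2
      exact absurd h2 (by decide)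
    have h1 := hD.delete_isCocircuit hsub
    have h2 : D \ {e} = {a, b, c} := by
      rw [hDe]
      rw [insert_sdiff_of_mem _ (mem_singleton e), sdiff_singleton_eq_self]
      rintro (h | h | h)
      · exact q.he (Or.inl h)
      · exact q.he (Or.inr (Or.inl h))
      · exact q.he (Or.inr (Or.inr (Or.inl h)))
    rw [h2] at h1
    exact con_regular q.rep q.yd q.hE q.he q.fe h1 h
  · intro h
    have hsub : ({e} : Set α) ⊂ D := by
      refine ⟨singleton_subset_iff.2 heD, fun h' => ?_⟩
      have h2 := Set.encard_le_encard h'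
      rw [h4, Set.encard_singleton] at h2
      exact absurd h2 (by decide)
    have h1 := hC.contract_isCircuit hsub
    have h2 : D \ {e} = {a, b, c} := by
      rw [hDe]
      rw [insert_sdiff_of_mem _ (mem_singleton e), sdiff_singleton_eq_self]
      rintro (h | h | h)
      · exact q.he (Or.inl h)
      · exact q.he (Or.inr (Or.inl h))
      · exact q.he (Or.inr (Or.inr (Or.inl h)))
    rw [h2] at h1
    exact del_regular q.rep q.yd q.hE q.he q.fe h1 h

end Pool.Agent.H2.TE
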