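import Pool.Agent.H2.TE.Fin

set_option autoImplicit false

namespace Pool.Agent.H2.TE

open Submodule Set Matroid

/-- `M` is representable over the field `K`. -/
def Representable {α : Type} (K : Type) [Field K] (M : Matroid α) : Prop :=
  ∃ (m : ℕ) (v : α → Fin m → K), ∀ I : Set α, M.Indep I ↔ I ⊆ M.E ∧ LinearIndepOn K v I

/-- `M` is regular: representable over every field. -/
def Regular {α : Type} (M : Matroid α) : Prop := ∀ (K : Type) [Field K], Representable K M

theorem rep_fd {α V K : Type} [Field K] [AddCommGroup V] [Module K V] [Module.Finite K V]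
    {M : Matroid α} {v : α → V} (h : Rep K M v) : Representable K M := by
  refine ⟨Module.finrank K V, fun a => (Module.finBasis K V).equivFun (v a), fun I => ?_⟩
  rw [h I]
  refine and_congr_right fun _ => ?_
  exact (LinearMap.linearIndependent_iff
    ((Module.finBasis K V).equivFun : V →ₗ[K] (Fin (Module.finrank K V) → K))
    (LinearEquiv.ker _)).symm

section yd

variable {α V K : Type} [Field K] [AddCommGroup V] [Module K V] {w u : α → V} {g : V →ₗ[K] K}
  {a b c : α} {X : Set α}

lemma YD.R1 (h : YD K w u g a b c X) {J : Set α} (hJ : J ⊆ X) :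
    LinearIndepOn K w (insert a J) ↔ LinearIndepOn K u J := by
  have haJ : a ∉ J := fun hh => h.aX (hJ hh)
  rw [linearIndepOn_insert haJ, h.L0 hJ]
  refine and_iff_left ?_
  intro hh
  have := h.gJ hJ hh
  rw [h.ga] at this
  exact one_ne_zero this

end yd

theorem transferR {α V W K L : Type} [Field K] [AddCommGroup V] [Module K V] [Field L] [AddCommGroup W] [Module L W]
    {v u : α → V} {w t : α → W} {f : V →ₗ[K] K} {g : W →ₗ[L] L} {a b c : α} {X : Set α}
    (h1 : YD K v u f a b c X) (h2 : YD L w t g a b c X)
    (key : ∀ T : Set α, T ⊆ insert a (insert b (insert c X)) → (LinearIndepOn K u T ↔ LinearIndepOn L t T))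
    {I : Set α} (hI : I ⊆ insert a (insert b (insert c X))) :
    LinearIndepOn K v I ↔ LinearIndepOn L w I := by
  obtain ⟨J, hJI, hJX, hJ⟩ : ∃ J : Set α, J ⊆ I ∧ J ⊆ X ∧ ∀ x ∈ I, x = a ∨ x = b ∨ x = c ∨ x ∈ J :=
    ⟨I ∩ X, inter_subset_left, inter_subset_right, fun x hx => by
      have := hI hx
      simp only [mem_insert_iff] at this
      simp only [mem_inter_iff]
      tauto⟩
  have hJE : insert a (insert b (insert c J)) ⊆ insert a (insert b (insert c X)) :=
    insert_subset_insert (insert_subset_insert (insert_subset_insert hJX))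
  have key' : ∀ T : Set α, T ⊆ insert a (insert b (insert c J)) → (LinearIndepOn K u T ↔ LinearIndepOn L t T) :=
    fun T hT => key T (hT.trans hJE)
  by_cases ha : a ∈ I <;> by_cases hb : b ∈ I <;> by_cases hc : c ∈ I
  · have e : I = insert a (insert b (insert c J)) := by
      ext x; simp only [mem_insert_iff]; constructor
      · exact hJ x
      · rintro (rfl | rfl | rfl | hx)
        exacts [ha, hb, hc, hJI hx]
    rw [e, ← h1.L2 hJX, ← h2.L2 hJX]
    refine key' _ fun x hx => ?_
    simp only [mem_insert_iff] at hx ⊢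
    tauto
  · have e : I = insert a (insert b J) := by
      ext x; simp only [mem_insert_iff]; constructor
      · intro hx
        rcases hJ x hx with h | h | h | h
        exacts [Or.inl h, Or.inr (Or.inl h), absurd (h ▸ hx) hc, Or.inr (Or.inr h)]
      · rintro (rfl | rfl | hx)
        exacts [ha, hb, hJI hx]
    rw [e, ← h1.rot.rot.L1 hJX, ← h2.rot.rot.L1 hJX]
    refine key' _ fun x hx => ?_
    simp only [mem_insert_iff] at hx ⊢
    tauto
  · have e : I = insert c (insert a J) := by
      ext x; simp only [mem_insert_iff]; constructor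
      · intro hx
        rcases hJ x hx with h | h | h | h
        exacts [Or.inr (Or.inl h), absurd (h ▸ hx) hb, Or.inl h, Or.inr (Or.inr h)]
      · rintro (rfl | rfl | hx)
        exacts [hc, ha, hJI hx]
    rw [e, ← h1.rot.L1 hJX, ← h2.rot.L1 hJX]
    refine key' _ fun x hx => ?_
    simp only [mem_insert_iff] at hx ⊢
    tauto
  · have e : I = insert a J := by
      ext x; simp only [mem_insert_iff]; constructor
      · intro hx
        rcases hJ x hx with h | h | h | h
        exacts [Or.inl h, absurd (h ▸ hx) hb, absurd (h ▸ hx) hc, Or.inr h]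
      · rintro (rfl | hx)
        exacts [ha, hJI hx]
    rw [e, h1.R1 hJX, h2.R1 hJX]
    refine key' _ fun x hx => ?_
    simp only [mem_insert_iff]
    tauto
  · have e : I = insert b (insert c J) := by
      ext x; simp only [mem_insert_iff]; constructor
      · intro hx
        rcases hJ x hx with h | h | h | h
        exacts [absurd (h ▸ hx) ha, Or.inl h, Or.inr (Or.inl h), Or.inr (Or.inr h)]
      · rintro (rfl | rfl | hx)
        exacts [hb, hc, hJI hx]
    rw [e, ← h1.L1 hJX, ← h2.L1 hJX]
    refine key' _ fun x hx => ?_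
    simp only [mem_insert_iff] at hx ⊢
    tauto
  · have e : I = insert b J := by
      ext x; simp only [mem_insert_iff]; constructor
      · intro hx
        rcases hJ x hx with h | h | h | h
        exacts [absurd (h ▸ hx) ha, Or.inl h, absurd (h ▸ hx) hc, Or.inr h]
      · rintro (rfl | hx)
        exacts [hb, hJI hx]
    rw [e, h1.rot.R1 hJX, h2.rot.R1 hJX]
    refine key' _ fun x hx => ?_
    simp only [mem_insert_iff]
    tauto
  · have e : I = insert c J := by
      ext x; simp only [mem_insert_iff]; constructor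
      · intro hx
        rcases hJ x hx with h | h | h | h
        exacts [absurd (h ▸ hx) ha, absurd (h ▸ hx) hb, Or.inl h, Or.inr h]
      · rintro (rfl | hx)
        exacts [hc, hJI hx]
    rw [e, h1.rot.rot.R1 hJX, h2.rot.rot.R1 hJX]
    refine key' _ fun x hx => ?_
    simp only [mem_insert_iff]
    tauto
  · have e : I = J := by
      ext x; constructor
      · intro hx
        rcases hJ x hx with h | h | h | h
        exacts [absurd (h ▸ hx) ha, absurd (h ▸ hx) hb, absurd (h ▸ hx) hc, h]
      · exact fun hx => hJI hx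
    rw [e, ← h1.L0 hJX, ← h2.L0 hJX]
    refine key' _ fun x hx => ?_
    simp only [mem_insert_iff]
    tauto

theorem rep_del {α V K : Type} [Field K] [AddCommGroup V] [Module K V] {M : Matroid α} {v : α → V} (hv : Rep K M v)
    (e : α) : Rep K (M ＼ {e}) v := by
  intro I
  rw [deleteElem_indep_iff, hv, delete_ground, Set.subset_sdiff, Set.disjoint_singleton_right]
  tauto

theorem rep_con {α V K : Type} [Field K] [AddCommGroup V] [Module K V] {M : Matroid α} {v : α → V} (hv : Rep K M v)
    {e : α} (heM : e ∈ M.E) (f : V →ₗ[K] K) (hf : f (v e) = -1) :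
    Rep K (M ／ {e}) (fun x => v x + f (v x) • v e) := by
  intro I
  have he0 : v e ≠ 0 := by
    intro h
    rw [h, map_zero] at hf
    exact (neg_ne_zero.2 one_ne_zero) hf.symm
  have hei : M.Indep {e} := (hv _).2 ⟨singleton_subset_iff.2 heM, by
    rw [linearIndepOn_singleton_iff]; exact he0⟩
  rw [hei.contract_indep_iff, hv, Set.union_singleton, Set.disjoint_singleton_right, contract_ground,
    Set.subset_sdiff, Set.disjoint_singleton_right]
  constructor
  · rintro ⟨h1, h2, h3⟩
    exact ⟨⟨(subset_insert _ _).trans h2, h1⟩, (rep_quot h1 f hf).1 h3⟩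
  · rintro ⟨⟨h1, h2⟩, h3⟩
    exact ⟨h2, insert_subset heM h1, (rep_quot h2 f hf).2 h3⟩

theorem yd2 {α V : Type} [AddCommGroup V] [Module (ZMod 2) V] {v : α → V} {f : V →ₗ[ZMod 2] (ZMod 2)}
    {a b c e : α} {X : Set α} (fa : f (v a) = 1) (fb : f (v b) = 1) (fc : f (v c) = 1)
    (fX : ∀ x ∈ X, f (v x) = 0) (hab : a ≠ b) (hbc : b ≠ c) (hca : c ≠ a) (haX : a ∉ X) (hbX : b ∉ X)
    (hcX : c ∉ X) (hve : v e = v a + v b + v c) :
    YD (ZMod 2) v (fun x => v x + f (v x) • v e) f a b c X := by
  refine ⟨fa, fb, fc, fX, ?_, ?_, ?_, ?_, hab, hbc, hca, haX, hbX, hcX⟩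
  · show v a + f (v a) • v e = v b - v c
    rw [fa, one_smul, hve, eq_sub_iff_add_eq]
    have : v a + (v a + v b + v c) + v c = (v a + v a) + (v c + v c) + v b := by abel
    rw [this, two, two, zero_add, zero_add]
  · show v b + f (v b) • v e = v c - v a
    rw [fb, one_smul, hve, eq_sub_iff_add_eq]
    have : v b + (v a + v b + v c) + v a = (v a + v a) + (v b + v b) + v c := by abel
    rw [this, two, two, zero_add, zero_add]
  · show v c + f (v c) • v e = v a - v b
    rw [fc, one_smul, hve, eq_sub_iff_add_eq]
    have : v c + (v a + v b + v c) + v b = (v b + v b) + (v c + v c) + v a := by abel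
    rw [this, two, two, zero_add, zero_add]
  · intro x hx
    show v x + f (v x) • v e = v x
    rw [fX x hx, zero_smul, add_zero]

/-- Scaling the vectors. -/
theorem rep_scale {α V K : Type} [Field K] [AddCommGroup V] [Module K V] {M : Matroid α} {v : α → V} (hv : Rep K M v)
    (u : α → Kˣ) : Rep K M (fun x => u x • v x) := by
  intro I
  rw [hv I]
  refine and_congr_right fun _ => ?_
  exact (LinearIndependent.units_smul_iff (fun x : I => v x) (fun x : I => u x)).symm

theorem con_regular {α V : Type} [AddCommGroup V] [Module (ZMod 2) V] {M : Matroid α} {v : α → V}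
    (hvM : Rep (ZMod 2) M v) {f : V →ₗ[ZMod 2] (ZMod 2)} {a b c e : α} {X : Set α}
    (y1 : YD (ZMod 2) v (fun x => v x + f (v x) • v e) f a b c X)
    (hME : M.E = insert e (insert a (insert b (insert c X)))) (he : e ∉ insert a (insert b (insert c X)))
    (fe : f (v e) = 1) (hcoc : (M ＼ {e}).IsCocircuit {a, b, c}) (hreg : Regular (M ＼ {e})) :
    Regular (M ／ {e}) := by
  classical
  intro K _
  have heM : e ∈ M.E := by rw [hME]; exact mem_insert _ _
  have hvN := rep_del hvM e
  have hvP := rep_con hvM heM f (by rw [fe]; decide)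
  have hNE : (M ＼ {e}).E = insert a (insert b (insert c X)) := by
    rw [delete_ground, hME, insert_sdiff_of_mem _ (mem_singleton e), sdiff_singleton_eq_self he]
  have hPE : (M ／ {e}).E = insert a (insert b (insert c X)) := by
    rw [contract_ground, hME, insert_sdiff_of_mem _ (mem_singleton e), sdiff_singleton_eq_self he]
  obtain ⟨m', w0, hw0⟩ := hreg K
  have hw0' : Rep K (M ＼ {e}) w0 := hw0
  obtain ⟨w, g, hw, hgT, hgX⟩ := norm hw0' hcoc
  have y2 : YD K w (fun x => if x = a then w b - w c else if x = b then w c - w a else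
      if x = c then w a - w b else w x) g a b c X := by
    refine ⟨hgT a (by simp), hgT b (by simp), hgT c (by simp), ?_, ?_, ?_, ?_, ?_, y1.ab, y1.bc, y1.ca, y1.aX,
      y1.bX, y1.cX⟩
    · intro x hx
      refine hgX x ⟨?_, ?_⟩
      · rw [hNE]; exact Or.inr (Or.inr (Or.inr hx))
      · rintro (h | h | h)
        · exact y1.aX (h ▸ hx)
        · exact y1.bX (h ▸ hx)
        · exact y1.cX (h ▸ hx)
    · simp
    · simp [y1.ab.symm]
    · simp [y1.ca, y1.bc.symm]
    · intro x hx
      have h1 : x ≠ a := fun h => y1.aX (by rw [← h]; exact hx)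
      have h2 : x ≠ b := fun h => y1.bX (by rw [← h]; exact hx)
      have h3 : x ≠ c := fun h => y1.cX (by rw [← h]; exact hx)
      simp [h1, h2, h3]
  refine ⟨m', fun x => if x = a then w b - w c else if x = b then w c - w a else
      if x = c then w a - w b else w x, fun I => ?_⟩
  rw [hvP I]
  refine and_congr_right fun hI => ?_
  rw [hPE] at hI
  exact transfer hvN hw y1 y2 hNE (by rw [hNE]; exact hI)

theorem del_regular {α V : Type} [AddCommGroup V] [Module (ZMod 2) V] {M : Matroid α} {v : α → V}
    (hvM : Rep (ZMod 2) M v) {f : V →ₗ[ZMod 2] (ZMod 2)} {a b c e : α} {X : Set α}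
    (y1 : YD (ZMod 2) v (fun x => v x + f (v x) • v e) f a b c X)
    (hME : M.E = insert e (insert a (insert b (insert c X)))) (he : e ∉ insert a (insert b (insert c X)))
    (fe : f (v e) = 1) (hcir : (M ／ {e}).IsCircuit {a, b, c}) (hreg : Regular (M ／ {e})) :
    Regular (M ＼ {e}) := by
  classical
  intro K _
  have heM : e ∈ M.E := by rw [hME]; exact mem_insert _ _
  have hvN := rep_del hvM e
  have hvP := rep_con hvM heM f (by rw [fe]; decide)
  have hNE : (M ＼ {e}).E = insert a (insert b (insert c X)) := by
    rw [delete_ground, hME, insert_sdiff_of_mem _ (mem_singleton e), sdiff_singleton_eq_self he]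
  have hPE : (M ／ {e}).E = insert a (insert b (insert c X)) := by
    rw [contract_ground, hME, insert_sdiff_of_mem _ (mem_singleton e), sdiff_singleton_eq_self he]
  obtain ⟨m', u0, hu0⟩ := hreg K
  have hu0' : Rep K (M ／ {e}) u0 := hu0
  have haE : a ∈ (M ／ {e}).E := by rw [hPE]; simp
  have hbE : b ∈ (M ／ {e}).E := by rw [hPE]; simp
  have hcE : c ∈ (M ／ {e}).E := by rw [hPE]; simp
  have hbcE : ({b, c} : Set α) ⊆ (M ／ {e}).E := insert_subset hbE (singleton_subset_iff.2 hcE)
  have h1 : a ∈ (M ／ {e}).closure {b, c} := by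
    have h2 := hcir.mem_closure_sdiff_singleton_of_mem (e := a) (by simp)
    have h3 : ({a, b, c} : Set α) \ {a} = {b, c} := by
      ext x
      simp only [mem_sdiff, mem_insert_iff, mem_singleton_iff]
      constructor
      · rintro ⟨h | h, h'⟩
        · exact absurd h h'
        · exact h
      · rintro (h | h)
        · exact ⟨Or.inr (Or.inl h), fun h' => y1.ab (h'.symm.trans h)⟩
        · exact ⟨Or.inr (Or.inr h), fun h' => y1.ca (h.symm.trans h')⟩
    rwa [h3] at h2
  rw [mem_cl hu0' hbcE haE, image_insert_eq, image_singleton, mem_span_pair] at h1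
  obtain ⟨r, s, hrs⟩ := h1
  have hss : ∀ {I : Set α}, I ⊂ {a, b, c} → LinearIndepOn K u0 I := fun {I} hI =>
    ((hu0 _).1 (hcir.ssubset_indep hI)).2
  have hac : ({a, c} : Set α) ⊂ {a, b, c} := by
    refine ⟨by intro x; simp only [mem_insert_iff, mem_singleton_iff]; tauto, fun h => ?_⟩
    have : b ∈ ({a, c} : Set α) := h (by simp)
    rcases this with h | h
    · exact y1.ab h.symm
    · exact y1.bc h
  have hab : ({a, b} : Set α) ⊂ {a, b, c} := by
    refine ⟨by intro x; simp only [mem_insert_iff, mem_singleton_iff]; tauto, fun h => ?_⟩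
    have : c ∈ ({a, b} : Set α) := h (by simp)
    rcases this with h | h
    · exact y1.ca h
    · exact y1.bc h.symm
  have hr : r ≠ 0 := by
    rintro rfl
    rw [zero_smul, zero_add] at hrs
    have h2 := hss hac
    rw [linearIndepOn_insert (by rw [mem_singleton_iff]; exact y1.ca.symm)] at h2
    exact h2.2 (by rw [← hrs]; exact smul_mem _ _ (subset_span ⟨c, rfl, rfl⟩))
  have hs : s ≠ 0 := by
    rintro rfl
    rw [zero_smul, add_zero] at hrs
    have h2 := hss hab
    rw [linearIndepOn_insert (by rw [mem_singleton_iff]; exact y1.ab)] at h2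
    exact h2.2 (by rw [← hrs]; exact smul_mem _ _ (subset_span ⟨b, rfl, rfl⟩))
  let q : α → Kˣ := fun x => if x = b then -Units.mk0 r hr else if x = c then -Units.mk0 s hs else 1
  let u : α → Fin m' → K := fun x => q x • u0 x
  have hu : Rep K (M ／ {e}) u := rep_scale hu0' q
  have hub : u b = -(r • u0 b) := by
    show q b • u0 b = _
    have : q b = -Units.mk0 r hr := if_pos rfl
    rw [this, Units.smul_def]
    simp
  have huc : u c = -(s • u0 c) := by
    show q c • u0 c = _
    have : q c = -Units.mk0 s hs := by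
      show (if c = b then _ else if c = c then _ else _) = _
      rw [if_neg y1.bc.symm, if_pos rfl]
    rw [this, Units.smul_def]
    simp
  have hua : u a = u0 a := by
    show q a • u0 a = _
    have : q a = 1 := by
      show (if a = b then _ else if a = c then _ else _) = _
      rw [if_neg y1.ab, if_neg y1.ca.symm]
    rw [this, one_smul]
  have hsum : u c = -u b - u a := by
    rw [hub, huc, hua, ← hrs]
    module
  let w : α → (Fin m' → K) × K := fun x => if x = a then (-u b, 1) else if x = b then (u a, 1) else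
    if x = c then (0, 1) else (u x, 0)
  let t : α → (Fin m' → K) × K := fun x => (u x, 0)
  have wa : w a = (-u b, 1) := if_pos rfl
  have wb : w b = (u a, 1) := by
    show (if b = a then _ else if b = b then _ else _) = _
    rw [if_neg y1.ab.symm, if_pos rfl]
  have wc : w c = (0, 1) := by
    show (if c = a then _ else if c = b then _ else if c = c then _ else _) = _
    rw [if_neg y1.ca, if_neg y1.bc.symm, if_pos rfl]
  have wX : ∀ x ∈ X, w x = (u x, 0) := by
    intro x hx
    have h1 : x ≠ a := fun h => y1.aX (by rw [← h]; exact hx)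
    have h2 : x ≠ b := fun h => y1.bX (by rw [← h]; exact hx)
    have h3 : x ≠ c := fun h => y1.cX (by rw [← h]; exact hx)
    show (if x = a then _ else if x = b then _ else if x = c then _ else _) = _
    rw [if_neg h1, if_neg h2, if_neg h3]
  have y2 : YD K w t (LinearMap.snd K (Fin m' → K) K) a b c X := by
    refine ⟨?_, ?_, ?_, ?_, ?_, ?_, ?_, ?_, y1.ab, y1.bc, y1.ca, y1.aX, y1.bX, y1.cX⟩
    · rw [wa]; rfl
    · rw [wb]; rfl
    · rw [wc]; rfl
    · intro x hx; rw [wX x hx]; rfl
    · rw [wb, wc]
      show (u a, (0 : K)) = _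
      ext <;> simp
    · rw [wc, wa]
      show (u b, (0 : K)) = _
      ext <;> simp
    · rw [wa, wb]
      show (u c, (0 : K)) = _
      rw [hsum]
      ext <;> simp
    · intro x hx
      rw [wX x hx]
  have hw : Rep K (M ＼ {e}) w := by
    intro I
    rw [hvN I]
    refine and_congr_right fun hI => ?_
    rw [hNE] at hI
    refine transferR y1 y2 (fun T hT => ?_) hI
    have h3 := hvP T
    rw [hu T, hPE] at h3
    have h4 : LinearIndepOn K u T ↔ LinearIndepOn (ZMod 2) (fun x => v x + f (v x) • v e) T := by
      simpa [hT] using h3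
    rw [← h4]
    exact (LinearMap.linearIndependent_iff (v := fun x : T => u x) (LinearMap.inl K (Fin m' → K) K)
      (LinearMap.ker_eq_bot.2 LinearMap.inl_injective)).symm
  exact rep_fd hw

end Pool.Agent.H2.TE
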