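import Pool.Agent.H2.TE.One

set_option autoImplicit false

namespace Pool.Agent.H2.TE

open Submodule Set Matroid

theorem partTwo {α : Type} [Finite α] (N : Matroid α) (hN : ThreeConnected N) (hreg : Regular N)
    (h4 : 4 ≤ N.E.encard) (T : Set α) (hT : N.IsCocircuit T) (hT3 : T.encard = 3) (e : α) (he : e ∉ N.E) :
    ∃ M : Matroid α, M.E = insert e N.E ∧ M ＼ {e} = N ∧ M.IsCircuit (insert e T) ∧ M.IsCocircuit (insert e T) ∧
      ThreeConnected M ∧ Representable (ZMod 2) M ∧ Regular (M ／ {e}) ∧
      ∀ (K : Type) [Field K], (2 : K) ≠ 0 → ¬ Representable K M := by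
  classical
  have hTE : T ⊆ N.E := hT.subset_ground
  obtain ⟨m, v0, hv0⟩ := hreg (ZMod 2)
  have hv0' : Rep (ZMod 2) N v0 := hv0
  obtain ⟨v1, f, hv1, hfT, hfX⟩ := norm hv0' hT
  obtain ⟨a, b, c, hab, hac, hbc, rfl⟩ := Set.encard_eq_three.1 hT3
  have hca : c ≠ a := hac.symm
  have haE : a ∈ N.E := hTE (by simp)
  have hbE : b ∈ N.E := hTE (by simp)
  have hcE : c ∈ N.E := hTE (by simp)
  have hea : e ≠ a := fun h => he (h ▸ haE)
  have heb : e ≠ b := fun h => he (h ▸ hbE)
  have hec : e ≠ c := fun h => he (h ▸ hcE)
  set v : α → Fin m → ZMod 2 := Function.update v1 e (v1 a + v1 b + v1 c) with hvdef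
  have hvN1 : ∀ x ∈ N.E, v x = v1 x := fun x hx => by
    rw [hvdef, Function.update_of_ne]
    rintro rfl
    exact he hx
  have hve : v e = v a + v b + v c := by
    rw [hvN1 a haE, hvN1 b hbE, hvN1 c hcE, hvdef, Function.update_self]
  have hvN : Rep (ZMod 2) N v := by
    intro I
    rw [hv1 I]
    refine and_congr_right fun hI => ?_
    exact linearIndepOn_congr fun x hx => (hvN1 x (hI hx)).symm
  set M : Matroid α := linMat (ZMod 2) (insert e N.E) v with hM
  have hME : M.E = insert e N.E := rfl
  have hvM : Rep (ZMod 2) M v := linMat_rep _ _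
  have hNM : N.E ⊆ M.E := by rw [hME]; exact subset_insert _ _
  have heM : e ∈ M.E := by rw [hME]; exact mem_insert _ _
  set X : Finset α := (Set.toFinite (N.E \ {a, b, c})).toFinset with hX
  have hXc : (X : Set α) = N.E \ {a, b, c} := by rw [hX]; exact Set.Finite.coe_toFinset _
  have hmX : ∀ x, x ∈ X ↔ x ∈ N.E ∧ x ∉ ({a, b, c} : Set α) := by
    intro x
    rw [← Finset.mem_coe, hXc]; rfl
  have haX : a ∉ X := by rw [hmX]; simp
  have hbX : b ∉ X := by rw [hmX]; simp
  have hcX : c ∉ X := by rw [hmX]; simp
  have hE : N.E = insert a (insert b (insert c (X : Set α))) := by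
    rw [hXc]
    ext x
    simp only [mem_insert_iff, mem_sdiff, mem_singleton_iff]
    constructor
    · intro hx
      by_cases h1 : x = a
      · exact Or.inl h1
      by_cases h2 : x = b
      · exact Or.inr (Or.inl h2)
      by_cases h3 : x = c
      · exact Or.inr (Or.inr (Or.inl h3))
      exact Or.inr (Or.inr (Or.inr ⟨hx, by tauto⟩))
    · rintro (rfl | rfl | rfl | ⟨hx, -⟩)
      exacts [haE, hbE, hcE, hx]
  have hXE : (X : Set α) ⊆ N.E := by rw [hXc]; exact sdiff_subset
  have fa : f (v a) = 1 := by rw [hvN1 a haE]; exact hfT a (by simp)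
  have fb : f (v b) = 1 := by rw [hvN1 b hbE]; exact hfT b (by simp)
  have fc : f (v c) = 1 := by rw [hvN1 c hcE]; exact hfT c (by simp)
  have fX : ∀ x ∈ (X : Set α), f (v x) = 0 := by
    intro x hx
    rw [hvN1 x (hXE hx)]
    rw [hXc] at hx
    exact hfX x hx
  have fS : ∀ x, x ∈ S v X → f x = 0 := by
    intro x hx
    refine gspan ?_ hx
    rintro _ ⟨y, hy, rfl⟩
    exact fX y hy
  have haS : v a ∉ S v X := fun h => by have := fS _ h; rw [fa] at this; exact one_ne_zero this
  have hbS : v b ∉ S v X := fun h => by have := fS _ h; rw [fb] at this; exact one_ne_zero this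
  have hcS : v c ∉ S v X := fun h => by have := fS _ h; rw [fc] at this; exact one_ne_zero this
  -- nonzero vectors
  have hpairN : ∀ x ∈ N.E, ∀ y ∈ N.E, x ≠ y → v x ≠ 0 ∧ v x + v y ≠ 0 := by
    intro x hx y hy hxy
    have h1 := ((hvN _).1 (simple hN h4 hx hy hxy)).2
    have h2 : x ∉ ({y} : Set α) := hxy
    rw [linearIndepOn_insert h2] at h1
    refine ⟨fun h => h1.2 (by rw [h]; exact zero_mem _), fun h => h1.2 ?_⟩
    rw [eq_of _ _ h]
    exact subset_span ⟨y, rfl, rfl⟩
  have ha0 := (hpairN a haE b hbE hab).1
  have hb0 := (hpairN b hbE c hcE hbc).1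
  have hc0 := (hpairN c hcE a haE hca).1
  have hab0 := (hpairN a haE b hbE hab).2
  have hbc0 := (hpairN b hbE c hcE hbc).2
  have hac0 := (hpairN a haE c hcE hac).2
  have hfe : f (v e) = 1 := by
    rw [hve, map_add, map_add, fa, fb, fc]; decide
  have he0 : v e ≠ 0 := fun h => by rw [h, map_zero] at hfe; exact zero_ne_one hfe
  have hx0 : ∀ x ∈ N.E, v x ≠ 0 := by
    intro x hx
    by_cases hxa : x = a
    · rw [hxa]; exact ha0
    · exact (hpairN x hx a haE hxa).1
  -- the spanning facts
  have hmin := isCocircuit_iff_minimal_compl_nonspanning.1 hT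
  have hspanX : ∀ x ∈ ({a, b, c} : Set α), ∀ y ∈ N.E, v y ∈ S v X ∨ v y + v x ∈ S v X := by
    intro x hx y hy
    have h1 : ({a, b, c} : Set α) \ {x} ⊂ {a, b, c} := ⟨sdiff_subset, fun h => (h hx).2 rfl⟩
    have h2 := hmin.not_prop_of_lt h1
    rw [not_not] at h2
    have h3 : N.E \ (({a, b, c} : Set α) \ {x}) = ((insert x X : Finset α) : Set α) := by
      rw [Finset.coe_insert, hXc]
      ext y
      simp only [mem_sdiff, mem_singleton_iff, mem_insert_iff, not_and, not_not]
      constructor
      · rintro ⟨h4, h5⟩
        by_cases hy : y = a ∨ y = b ∨ y = c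
        · exact Or.inl (h5 hy)
        · exact Or.inr ⟨h4, hy⟩
      · rintro (rfl | ⟨h4, h5⟩)
        · exact ⟨hTE hx, fun _ => rfl⟩
        · exact ⟨h4, fun h => absurd h h5⟩
    rw [h3] at h2
    have h4 : y ∈ N.closure ((insert x X : Finset α) : Set α) := by rw [h2.closure_eq]; exact hy
    rw [mem_cl hvN h2.subset_ground hy] at h4
    exact (mem_ins v X x _).1 h4
  have hacS : v a + v c ∈ S v X := (hspanX c (by simp) a haE).resolve_left haS
  have hbcS : v b + v c ∈ S v X := (hspanX c (by simp) b hbE).resolve_left hbS
  have hdel : M ＼ {e} = N := by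
    refine Matroid.ext_indep ?_ ?_
    · rw [delete_ground, hME, insert_sdiff_of_mem _ (mem_singleton e), sdiff_singleton_eq_self he]
    · intro I hI
      rw [delete_ground, hME, insert_sdiff_of_mem _ (mem_singleton e), sdiff_singleton_eq_self he] at hI
      rw [deleteElem_indep_iff, hvM, hvN]
      constructor
      · rintro ⟨⟨-, h2⟩, -⟩
        exact ⟨hI, h2⟩
      · rintro ⟨h1, h2⟩
        exact ⟨⟨h1.trans hNM, h2⟩, fun h => he (h1 h)⟩
  have hME' : M.E = insert e (insert a (insert b (insert c (X : Set α)))) := by rw [hME, hE]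
  have heE' : e ∉ insert a (insert b (insert c (X : Set α))) := by rw [← hE]; exact he
  have y1 : YD (ZMod 2) v (fun x => v x + f (v x) • v e) f a b c (X : Set α) :=
    yd2 fa fb fc fX hab hbc hca haX hbX hcX hve
  refine ⟨M, rfl, hdel, ?_, ?_, ?_, ⟨m, v, hvM⟩, ?_, ?_⟩
  · -- the circuit
    have e1 : v e + v b = v a + v c := by
      rw [hve]
      have : v a + v b + v c + v b = v a + v c + (v b + v b) := by abel
      rw [this, two, add_zero]
    have e2 : v e + v c = v a + v b := by
      rw [hve, add_assoc, two, add_zero]
    have e3 : v e + v a = v b + v c := by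
      rw [hve]
      have : v a + v b + v c + v a = v b + v c + (v a + v a) := by abel
      rw [this, two, add_zero]
    have t0 : v a + v b + v c ≠ 0 := by rw [← hve]; exact he0
    have i1 : LinearIndepOn (ZMod 2) v {a, b, c} := li_tri hab hac hbc hc0 hb0 hbc0 ha0 hab0 hac0 t0
    have i2 : LinearIndepOn (ZMod 2) v {e, b, c} :=
      li_tri heb hec hbc hc0 hb0 hbc0 he0 (by rw [e1]; exact hac0) (by rw [e2]; exact hab0) (by
        rw [e1, add_assoc, two, add_zero]; exact ha0)
    have i3 : LinearIndepOn (ZMod 2) v {e, a, c} :=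
      li_tri hea hec hac hc0 ha0 hac0 he0 (by rw [e3]; exact hbc0) (by rw [e2]; exact hab0) (by
        rw [e3, add_assoc, two, add_zero]; exact hb0)
    have i4 : LinearIndepOn (ZMod 2) v {e, a, b} :=
      li_tri hea heb hab hb0 ha0 hab0 he0 (by rw [e3]; exact hbc0) (by rw [e1]; exact hac0) (by
        rw [e3, add_right_comm, two, zero_add]; exact hc0)
    have hCE : insert e ({a, b, c} : Set α) ⊆ M.E := by
      rw [hME]; exact insert_subset_insert hTE
    have hsub : ∀ {I : Set α}, I ⊆ insert e ({a, b, c} : Set α) → LinearIndepOn (ZMod 2) v I → M.Indep I :=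
      fun hI h => (hvM _).2 ⟨hI.trans hCE, h⟩
    rw [isCircuit_iff_forall_ssubset]
    constructor
    · rw [dep_iff]
      refine ⟨fun h => ?_, hCE⟩
      have h1 := ((hvM _).1 h).2
      have h2 : e ∉ ({a, b, c} : Set α) := by
        rintro (h | h | h)
        exacts [hea h, heb h, hec h]
      rw [linearIndepOn_insert h2] at h1
      apply h1.2
      rw [hve]
      refine add_mem (add_mem ?_ ?_) ?_
      · exact subset_span ⟨a, by simp, rfl⟩
      · exact subset_span ⟨b, by simp, rfl⟩
      · exact subset_span ⟨c, by simp, rfl⟩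
    · intro I hI
      obtain ⟨x, hx, hxI⟩ := exists_of_ssubset hI
      have hIx : I ⊆ insert e ({a, b, c} : Set α) \ {x} :=
        subset_sdiff_singleton hI.subset hxI
      have h1 : LinearIndepOn (ZMod 2) v (insert e ({a, b, c} : Set α) \ {x}) := by
        rcases hx with rfl | rfl | rfl | rfl
        · refine i1.mono ?_
          rintro y ⟨(h | h), h'⟩
          · exact absurd h h'
          · exact h
        · refine i2.mono ?_
          rintro y ⟨(h | h | h | h), h'⟩
          · exact Or.inl h
          · exact absurd h h'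
          · exact Or.inr (Or.inl h)
          · exact Or.inr (Or.inr h)
        · refine i3.mono ?_
          rintro y ⟨(h | h | h | h), h'⟩
          · exact Or.inl h
          · exact Or.inr (Or.inl h)
          · exact absurd h h'
          · exact Or.inr (Or.inr h)
        · refine i4.mono ?_
          rintro y ⟨(h | h | h | h), h'⟩
          · exact Or.inl h
          · exact Or.inr (Or.inl h)
          · exact Or.inr (Or.inr h)
          · exact absurd h h'
      exact hsub hI.subset (h1.mono hIx)
  · -- the cocircuit
    rw [isCocircuit_iff_minimal_compl_nonspanning, minimal_iff_forall_ssubset]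
    have hXM : (X : Set α) ⊆ M.E := hXE.trans hNM
    have hcompl : M.E \ insert e ({a, b, c} : Set α) = (X : Set α) := by
      rw [hXc, hME]
      ext x
      simp only [mem_sdiff, mem_insert_iff]
      constructor
      · rintro ⟨h1 | h1, h2⟩
        · exact absurd (Or.inl h1) h2
        · exact ⟨h1, fun h => h2 (Or.inr h)⟩
      · rintro ⟨h1, h2⟩
        refine ⟨Or.inr h1, ?_⟩
        rintro (rfl | h3)
        · exact he h1
        · exact h2 h3
    constructor
    · rw [hcompl]
      intro h
      have h1 : a ∈ M.closure (X : Set α) := by rw [h.closure_eq]; exact hNM haE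
      rw [mem_cl hvM hXM (hNM haE)] at h1
      exact haS h1
    · intro I hI
      rw [not_not]
      obtain ⟨x, hx, hxI⟩ := exists_of_ssubset hI
      have hxM : x ∈ M.E := by
        rw [hME]
        rcases hx with rfl | hx
        · exact mem_insert _ _
        · exact Or.inr (hTE hx)
      have hins : insert x (X : Set α) ⊆ M.E := insert_subset hxM hXM
      have h1 : M.Spanning (insert x (X : Set α)) := by
        rw [spanning_iff_closure_eq hins]
        refine (M.closure_subset_ground _).antisymm fun y hy => ?_
        rw [mem_cl hvM hins hy, ← Finset.coe_insert]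
        have key : ∀ z ∈ ({a, b, c} : Set α), v z ∈ S v (insert x X) := by
          intro z hz
          have hfz : f (v z) = 1 := by
            rcases hz with rfl | rfl | rfl
            exacts [fa, fb, fc]
          have hzS : v z ∉ S v X := fun h => by
            have := fS _ h
            rw [hfz] at this
            exact one_ne_zero this
          rw [mem_ins]
          right
          rcases hx with rfl | hx
          · -- x = e
            have h2 : v z + v x ∈ S v X := by
              rw [hve]
              rcases hz with rfl | rfl | rfl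
              · have : v z + (v z + v b + v c) = v b + v c + (v z + v z) := by abel
                rw [this, two, add_zero]; exact hbcS
              · have : v z + (v a + v z + v c) = v a + v c + (v z + v z) := by abel
                rw [this, two, add_zero]; exact hacS
              · have : v z + (v a + v b + v z) = (v a + v z) + (v b + v z) := by abel
                rw [this]; exact add_mem hacS hbcS
            exact h2
          · exact (hspanX x hx z (hTE hz)).resolve_left hzS
        rw [hME'] at hy
        rcases hy with rfl | hy | hy | hy | hy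
        · rw [hve]
          exact add_mem (add_mem (key a (by simp)) (key b (by simp))) (key c (by simp))
        · rw [hy]; exact key a (by simp)
        · rw [hy]; exact key b (by simp)
        · rw [hy]; exact key c (by simp)
        · exact S_mono v (Finset.subset_insert _ _) (mem_S v hy)
      refine h1.superset ?_ sdiff_subset
      intro y hy
      refine ⟨hins hy, ?_⟩
      rcases hy with rfl | hy
      · exact hxI
      · intro h
        have h2 := hI.subset h
        rw [← hcompl] at hy
        exact hy.2 h2
  · -- 3-connected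
    refine ext_three he hME hdel hN ⟨a, haE⟩ (fun x hx => ?_) ?_
    · have hex : e ≠ x := fun h => he (h ▸ hx)
      refine (hvM _).2 ⟨insert_subset heM (singleton_subset_iff.2 (hNM hx)), li_pair hex (hx0 x hx) he0 ?_⟩
      intro h
      rw [hve] at h
      rw [hE] at hx
      rcases hx with rfl | rfl | rfl | hx
      · apply hbc0
        have : v x + v b + v c + v x = v b + v c + (v x + v x) := by abel
        rwa [this, two, add_zero] at h
      · apply hac0
        have : v a + v x + v c + v x = v a + v c + (v x + v x) := by abel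
        rwa [this, two, add_zero] at h
      · apply hab0
        rwa [add_assoc, two, add_zero] at h
      · have h1 := congrArg f h
        rw [map_add, ← hve, hfe, fX x hx, map_zero] at h1
        exact absurd h1 (by decide)
    · rw [mem_cl hvM hNM heM, hve]
      refine add_mem (add_mem ?_ ?_) ?_
      · exact subset_span ⟨a, haE, rfl⟩
      · exact subset_span ⟨b, hbE, rfl⟩
      · exact subset_span ⟨c, hcE, rfl⟩
  · -- the contraction
    refine con_regular hvM y1 hME' heE' hfe ?_ ?_
    · rw [hdel]; exact hT
    · rw [hdel]; exact hreg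
  · -- not representable
    rintro K _ hK ⟨m', w, hw⟩
    refine nonrep hK hvM hw (by rw [hME']; exact subset_insert _ _) heM ?_ ?_ ?_ hacS hbcS haS hbS hcS hab0 hac0
      hbc0 hve
    · intro A B g1 g2 g3 g4 g5
      exact no_sep hN hvN hab hbc hca (by rw [g1]; exact hE) (by rw [g1]; exact haX) (by rw [g1]; exact hbX)
        (by rw [g1]; exact hcX) g2 g3 g4 g5 hac0 (by rw [g1]; exact haS)
    · intro A B g1 g2 g3 g4 g5
      refine no_sep hN hvN hbc hca hab ?_ (by rw [g1]; exact hbX) (by rw [g1]; exact hcX)
        (by rw [g1]; exact haX) g2 g3 g4 g5 (by rw [add_comm]; exact hab0) (by rw [g1]; exact hbS)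
      rw [g1, hE]; ext x; simp only [mem_insert_iff]; tauto
    · intro A B g1 g2 g3 g4 g5
      refine no_sep hN hvN hca hab hbc ?_ (by rw [g1]; exact hcX) (by rw [g1]; exact haX)
        (by rw [g1]; exact hbX) g2 g3 g4 g5 (by rw [add_comm]; exact hbc0) (by rw [g1]; exact hcS)
      rw [g1, hE]; ext x; simp only [mem_insert_iff]; tauto

end Pool.Agent.H2.TE
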