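import Pool.Agent.H2.TE.Mat

set_option autoImplicit false

namespace Pool.Agent.H2.TE

open Submodule Set Matroid

/-- The vectors `u` arise from the vectors `w` by the exchange of the star `a, b, c` for a triangle. -/
structure YD (K : Type) {α V : Type} [Field K] [AddCommGroup V] [Module K V] (w u : α → V) (g : V →ₗ[K] K)
    (a b c : α) (X : Set α) : Prop where
  ga : g (w a) = 1
  gb : g (w b) = 1
  gc : g (w c) = 1
  gX : ∀ x ∈ X, g (w x) = 0
  ua : u a = w b - w c
  ub : u b = w c - w a
  uc : u c = w a - w b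
  uX : ∀ x ∈ X, u x = w x
  ab : a ≠ b
  bc : b ≠ c
  ca : c ≠ a
  aX : a ∉ X
  bX : b ∉ X
  cX : c ∉ X

section yd

variable {α V K : Type} [Field K] [AddCommGroup V] [Module K V] {w u : α → V} {g : V →ₗ[K] K}
  {a b c : α} {X : Set α}

lemma YD.rot (h : YD K w u g a b c X) : YD K w u g b c a X where
  ga := h.gb
  gb := h.gc
  gc := h.ga
  gX := h.gX
  ua := h.ub
  ub := h.uc
  uc := h.ua
  uX := h.uX
  ab := h.bc
  bc := h.ca
  ca := h.ab
  aX := h.bX
  bX := h.cX
  cX := h.aX

lemma gspan {s : Set V} (hs : ∀ y ∈ s, g y = 0) {x : V} (hx : x ∈ span K s) : g x = 0 := by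
  have : span K s ≤ LinearMap.ker g := span_le.2 fun y hy => hs y hy
  exact this hx

lemma YD.L0 (h : YD K w u g a b c X) {J : Set α} (hJ : J ⊆ X) : LinearIndepOn K u J ↔ LinearIndepOn K w J :=
  linearIndepOn_congr fun x hx => h.uX x (hJ hx)

lemma YD.img (h : YD K w u g a b c X) {J : Set α} (hJ : J ⊆ X) : u '' J = w '' J :=
  image_congr fun x hx => h.uX x (hJ hx)

lemma YD.gJ (h : YD K w u g a b c X) {J : Set α} (hJ : J ⊆ X) {x : V} (hx : x ∈ span K (w '' J)) : g x = 0 := by
  refine gspan ?_ hx
  rintro _ ⟨y, hy, rfl⟩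
  exact h.gX y (hJ hy)

lemma YD.L1 (h : YD K w u g a b c X) {J : Set α} (hJ : J ⊆ X) :
    LinearIndepOn K u (insert a J) ↔ LinearIndepOn K w (insert b (insert c J)) := by
  have haJ : a ∉ J := fun hh => h.aX (hJ hh)
  have hbJ : b ∉ insert c J := by
    rintro (hh | hh)
    · exact h.bc hh
    · exact h.bX (hJ hh)
  have hcJ : c ∉ J := fun hh => h.cX (hJ hh)
  rw [linearIndepOn_insert haJ, linearIndepOn_insert hbJ, linearIndepOn_insert hcJ, h.L0 hJ, h.img hJ, h.ua,
    image_insert_eq]
  have h1 : w c ∉ span K (w '' J) := by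
    intro hh
    have := h.gJ hJ hh
    rw [h.gc] at this
    exact one_ne_zero this
  have h2 : w b ∈ span K (insert (w c) (w '' J)) ↔ w b - w c ∈ span K (w '' J) := by
    rw [mem_span_insert]
    constructor
    · rintro ⟨t, z, hz, hh⟩
      have h3 := congrArg g hh
      rw [map_add, map_smul, h.gb, h.gc, h.gJ hJ hz, add_zero, smul_eq_mul, mul_one] at h3
      rw [hh, ← h3, one_smul, add_sub_cancel_left]
      exact hz
    · intro hh
      exact ⟨1, _, hh, by rw [one_smul]; abel⟩
  rw [h2]
  tauto

lemma YD.L2 (h : YD K w u g a b c X) {J : Set α} (hJ : J ⊆ X) :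
    LinearIndepOn K u (insert a (insert b J)) ↔ LinearIndepOn K w (insert a (insert b (insert c J))) := by
  have haJ : a ∉ insert b J := by
    rintro (hh | hh)
    · exact h.ab hh
    · exact h.aX (hJ hh)
  have haJ' : a ∉ insert b (insert c J) := by
    rintro (hh | hh | hh)
    · exact h.ab hh
    · exact h.ca hh.symm
    · exact h.aX (hJ hh)
  have hbJ : b ∉ J := fun hh => h.bX (hJ hh)
  have hbJ' : b ∉ insert c J := by
    rintro (hh | hh)
    · exact h.bc hh
    · exact h.bX (hJ hh)
  have hcJ : c ∉ J := fun hh => h.cX (hJ hh)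
  rw [linearIndepOn_insert haJ, linearIndepOn_insert hbJ, linearIndepOn_insert haJ', linearIndepOn_insert hbJ',
    linearIndepOn_insert hcJ, image_insert_eq, image_insert_eq, image_insert_eq, h.L0 hJ, h.img hJ, h.ua, h.ub]
  have h1 : w c ∉ span K (w '' J) := by
    intro hh
    have := h.gJ hJ hh
    rw [h.gc] at this
    exact one_ne_zero this
  have h2 : w b ∈ span K (insert (w c) (w '' J)) ↔ w b - w c ∈ span K (w '' J) := by
    rw [mem_span_insert]
    constructor
    · rintro ⟨t, z, hz, hh⟩
      have h3 := congrArg g hh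
      rw [map_add, map_smul, h.gb, h.gc, h.gJ hJ hz, add_zero, smul_eq_mul, mul_one] at h3
      rw [hh, ← h3, one_smul, add_sub_cancel_left]
      exact hz
    · intro hh
      exact ⟨1, _, hh, by rw [one_smul]; abel⟩
  have h3 : w a ∈ span K (insert (w b) (insert (w c) (w '' J))) ↔
      w c - w a ∈ span K (insert (w b - w c) (w '' J)) := by
    rw [mem_span_insert]
    constructor
    · rintro ⟨t, z, hz, hh⟩
      obtain ⟨s, z', hz', hh'⟩ := mem_span_insert.1 hz
      have h4 := congrArg g hh
      rw [hh', map_add, map_add, map_smul, map_smul, h.ga, h.gb, h.gc, h.gJ hJ hz', add_zero, smul_eq_mul,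
        smul_eq_mul, mul_one, mul_one] at h4
      rw [mem_span_insert]
      refine ⟨-t, -z', neg_mem hz', ?_⟩
      have hs : s = 1 - t := by rw [h4]; ring
      rw [hh, hh', hs]
      module
    · intro hh
      obtain ⟨t, z, hz, h4⟩ := mem_span_insert.1 hh
      refine ⟨-t, (1 + t) • w c + -z, mem_span_insert.2 ⟨1 + t, -z, neg_mem hz, rfl⟩, ?_⟩
      have h5 : w a = w c - (w c - w a) := by abel
      rw [h5, h4]
      module
  rw [h2, image_insert_eq, h3]
  constructor
  · rintro ⟨⟨p1, p2⟩, p3⟩
    refine ⟨⟨⟨p1, h1⟩, fun hh => p3 (span_mono (subset_insert _ _) hh)⟩, fun hh => ?_⟩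
    exact p3 (mem_span_insert_exchange hh p2)
  · rintro ⟨⟨⟨p1, p2⟩, p3⟩, p4⟩
    refine ⟨⟨p1, fun hh => p4 (span_mono (subset_insert _ _) hh)⟩, fun hh => ?_⟩
    exact p4 (mem_span_insert_exchange hh p3)

lemma YD.L3 (h : YD K w u g a b c X) {J : Set α} (hJ : J ⊆ X) :
    ¬ LinearIndepOn K u (insert a (insert b (insert c J))) := by
  have haJ' : a ∉ insert b (insert c J) := by
    rintro (hh | hh | hh)
    · exact h.ab hh
    · exact h.ca hh.symm
    · exact h.aX (hJ hh)
  rw [linearIndepOn_insert haJ']
  rintro ⟨-, h2⟩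
  apply h2
  have h3 : u a = -(u b + u c) := by
    rw [h.ua, h.ub, h.uc]; abel
  rw [h3]
  refine neg_mem (add_mem (subset_span ⟨b, Or.inl rfl, rfl⟩) (subset_span ⟨c, Or.inr (Or.inl rfl), rfl⟩))

end yd

theorem transfer {α V W K L : Type} [Field K] [AddCommGroup V] [Module K V] [Field L] [AddCommGroup W] [Module L W]
    {N : Matroid α} {v u : α → V} {w t : α → W} {f : V →ₗ[K] K} {g : W →ₗ[L] L} {a b c : α} {X : Set α}
    (hv : Rep K N v) (hw : Rep L N w) (h1 : YD K v u f a b c X) (h2 : YD L w t g a b c X)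
    (hE : N.E = insert a (insert b (insert c X))) {I : Set α} (hI : I ⊆ N.E) :
    LinearIndepOn K u I ↔ LinearIndepOn L t I := by
  have key : ∀ T : Set α, T ⊆ N.E → (LinearIndepOn K v T ↔ LinearIndepOn L w T) := by
    intro T hT
    have e1 := hv T
    have e2 := hw T
    rw [e1] at e2
    simpa [hT] using e2
  obtain ⟨J, hJI, hJX, hJ⟩ : ∃ J : Set α, J ⊆ I ∧ J ⊆ X ∧ ∀ x ∈ I, x = a ∨ x = b ∨ x = c ∨ x ∈ J :=
    ⟨I ∩ X, inter_subset_left, inter_subset_right, fun x hx => by
      have := hI hx
      rw [hE] at this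
      simp only [mem_insert_iff] at this
      simp only [mem_inter_iff]
      tauto⟩
  have hJE : insert a (insert b (insert c J)) ⊆ N.E := by
    rw [hE]
    exact insert_subset_insert (insert_subset_insert (insert_subset_insert hJX))
  by_cases ha : a ∈ I <;> by_cases hb : b ∈ I <;> by_cases hc : c ∈ I
  · have e : I = insert a (insert b (insert c J)) := by
      ext x; simp only [mem_insert_iff]; constructor
      · exact hJ x
      · rintro (rfl | rfl | rfl | hx)
        exacts [ha, hb, hc, hJI hx]
    rw [e]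
    exact iff_of_false (h1.L3 hJX) (h2.L3 hJX)
  · have e : I = insert a (insert b J) := by
      ext x; simp only [mem_insert_iff]; constructor
      · intro hx
        rcases hJ x hx with h | h | h | h
        exacts [Or.inl h, Or.inr (Or.inl h), absurd (h ▸ hx) hc, Or.inr (Or.inr h)]
      · rintro (rfl | rfl | hx)
        exacts [ha, hb, hJI hx]
    rw [e, h1.L2 hJX, h2.L2 hJX]
    exact key _ hJE
  · have e : I = insert c (insert a J) := by
      ext x; simp only [mem_insert_iff]; constructor
      · intro hx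
        rcases hJ x hx with h | h | h | h
        exacts [Or.inr (Or.inl h), absurd (h ▸ hx) hb, Or.inl h, Or.inr (Or.inr h)]
      · rintro (rfl | rfl | hx)
        exacts [hc, ha, hJI hx]
    rw [e, h1.rot.rot.L2 hJX, h2.rot.rot.L2 hJX]
    refine key _ (Subset.trans (fun x hx => ?_) hJE)
    simp only [mem_insert_iff] at hx ⊢
    tauto
  · have e : I = insert a J := by
      ext x; simp only [mem_insert_iff]; constructor
      · intro hx
        rcases hJ x hx with h | h | h | h
        exacts [Or.inl h, absurd (h ▸ hx) hb, absurd (h ▸ hx) hc, Or.inr h]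
      · rintro (rfl | hx)
        exacts [ha, hJI hx]
    rw [e, h1.L1 hJX, h2.L1 hJX]
    refine key _ (Subset.trans (fun x hx => ?_) hJE)
    simp only [mem_insert_iff] at hx ⊢
    tauto
  · have e : I = insert b (insert c J) := by
      ext x; simp only [mem_insert_iff]; constructor
      · intro hx
        rcases hJ x hx with h | h | h | h
        exacts [absurd (h ▸ hx) ha, Or.inl h, Or.inr (Or.inl h), Or.inr (Or.inr h)]
      · rintro (rfl | rfl | hx)
        exacts [hb, hc, hJI hx]
    rw [e, h1.rot.L2 hJX, h2.rot.L2 hJX]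
    refine key _ (Subset.trans (fun x hx => ?_) hJE)
    simp only [mem_insert_iff] at hx ⊢
    tauto
  · have e : I = insert b J := by
      ext x; simp only [mem_insert_iff]; constructor
      · intro hx
        rcases hJ x hx with h | h | h | h
        exacts [absurd (h ▸ hx) ha, Or.inl h, absurd (h ▸ hx) hc, Or.inr h]
      · rintro (rfl | hx)
        exacts [hb, hJI hx]
    rw [e, h1.rot.L1 hJX, h2.rot.L1 hJX]
    refine key _ (Subset.trans (fun x hx => ?_) hJE)
    simp only [mem_insert_iff] at hx ⊢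
    tauto
  · have e : I = insert c J := by
      ext x; simp only [mem_insert_iff]; constructor
      · intro hx
        rcases hJ x hx with h | h | h | h
        exacts [absurd (h ▸ hx) ha, absurd (h ▸ hx) hb, Or.inl h, Or.inr h]
      · rintro (rfl | hx)
        exacts [hc, hJI hx]
    rw [e, h1.rot.rot.L1 hJX, h2.rot.rot.L1 hJX]
    refine key _ (Subset.trans (fun x hx => ?_) hJE)
    simp only [mem_insert_iff] at hx ⊢
    tauto
  · have e : I = J := by
      ext x; constructor
      · intro hx
        rcases hJ x hx with h | h | h | h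
        exacts [absurd (h ▸ hx) ha, absurd (h ▸ hx) hb, absurd (h ▸ hx) hc, h]
      · exact fun hx => hJI hx
    rw [e, h1.L0 hJX, h2.L0 hJX]
    refine key _ (Subset.trans (fun x hx => ?_) hJE)
    simp only [mem_insert_iff]
    tauto

end Pool.Agent.H2.TE
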